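import Mathlib

/-!
# Crump-Mode-Jagers trees stopped at explosion: definitions and the deterministic part
-/

open Filter Topology Set MeasureTheory ProbabilityTheory

namespace Pool.Agent.V1138.CM

noncomputable section

/-- Waiting times: `x (u, j)` is the waiting time between the births of the children number `j - 1`
and `j` of the individual `u` (for `j = 0` between the birth of `u` and of its first child, which has
number `0`). Individuals are finite sequences of natural numbers: the root is `[]`, the child number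
`i` of `u` is `i :: u`. -/
abbrev Times : Type := List ℕ × ℕ → ℝ

/-- Birth times: `0` for the root, and `B(u i) = B(u) + ∑_{j ≤ i} x (u, j)`. -/
def birth (x : Times) : List ℕ → ℝ
  | [] => 0
  | i :: u => birth x u + ∑ j ∈ Finset.range (i + 1), x (u, j)

/-- The set of the individuals born up to time `t`. -/
def bornBy (x : Times) (t : ℝ) : Set (List ℕ) := {u | birth x u ≤ t}

/-- The explosion time `inf {t ≥ 0 : infinitely many individuals are born up to time t}`. -/
def explosionTime (x : Times) : EReal :=
  sInf {t : EReal | ∃ r : ℝ, 0 ≤ r ∧ (r : EReal) = t ∧ (bornBy x r).Infinite}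

/-- The tree of the individuals born before explosion. -/
def treeAtExplosion (x : Times) : Set (List ℕ) := {u | (birth x u : EReal) < explosionTime x}

section

variable {x : Times} (h0 : ∀ a, 0 < x a)

include h0

theorem birth_nonneg (u : List ℕ) : 0 ≤ birth x u := by
  induction u with
  | nil => exact le_rfl
  | cons i u ih => exact add_nonneg ih (Finset.sum_nonneg fun j _ => (h0 _).le)

theorem birth_lt (i : ℕ) (u : List ℕ) : birth x u < birth x (i :: u) := by
  have h1 : 0 < ∑ j ∈ Finset.range (i + 1), x (u, j) :=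
    Finset.sum_pos (fun j _ => h0 _) ⟨0, by simp⟩
  change birth x u < birth x u + _
  linarith

theorem birth_mono {i j : ℕ} (hij : i ≤ j) (u : List ℕ) : birth x (i :: u) ≤ birth x (j :: u) := by
  change birth x u + _ ≤ birth x u + _
  have h1 := Finset.sum_le_sum_of_subset_of_nonneg (f := fun j => x (u, j))
    (Finset.range_mono (Nat.succ_le_succ hij)) (fun k _ _ => (h0 _).le)
  exact add_le_add le_rfl h1

variable (h1 : ∀ u, ∀ C : ℝ, ∃ m, C < ∑ j ∈ Finset.range m, x (u, j))

include h1

/-- finitely many children up to each time -/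
theorem finite_children (u : List ℕ) (C : ℝ) : {i | birth x (i :: u) ≤ C}.Finite := by
  obtain ⟨m, hm⟩ := h1 u (C - birth x u)
  refine (Set.finite_lt_nat m).subset fun i hi => ?_
  by_contra hcon
  have h2 : m ≤ i + 1 := by
    have : ¬ i < m := hcon
    omega
  have h3 := Finset.sum_le_sum_of_subset_of_nonneg (f := fun j => x (u, j))
    (Finset.range_mono h2) (fun k _ _ => (h0 _).le)
  have h4 : birth x u + ∑ j ∈ Finset.range (i + 1), x (u, j) ≤ C := hi
  linarith

variable (h2 : ∃ t, (bornBy x t).Infinite)

include h2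

/-- the real explosion time -/
def tau (x : Times) : ℝ := sInf {t | (bornBy x t).Infinite}

omit h1 h2 in
theorem nonneg_of_inf {t : ℝ} (ht : (bornBy x t).Infinite) : 0 ≤ t := by
  obtain ⟨u, hu⟩ := ht.nonempty
  exact (birth_nonneg h0 u).trans hu

omit h1 h2 in
theorem bdd : BddBelow {t | (bornBy x t).Infinite} := ⟨0, fun _ ht => nonneg_of_inf h0 ht⟩

omit h1 in
theorem tau_nonneg : 0 ≤ tau x := by
  obtain ⟨t, ht⟩ := h2
  exact le_csInf ⟨t, ht⟩ fun _ hs => nonneg_of_inf h0 hs

omit h1 in
theorem explosionTime_eq : explosionTime x = (tau x : EReal) := by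
  unfold explosionTime
  apply le_antisymm
  · obtain ⟨t, ht⟩ := h2
    have key : ∀ s : ℝ, tau x < s → (sInf {t : EReal | ∃ r : ℝ, 0 ≤ r ∧ (r : EReal) = t ∧
        (bornBy x r).Infinite}) ≤ (s : EReal) := by
      intro s hs
      obtain ⟨r, hr, hrs⟩ := exists_lt_of_csInf_lt ⟨t, ht⟩ hs
      have hmem : (r : EReal) ∈ {t : EReal | ∃ r : ℝ, 0 ≤ r ∧ (r : EReal) = t ∧
        (bornBy x r).Infinite} := ⟨r, nonneg_of_inf h0 hr, rfl, hr⟩
      refine (sInf_le hmem).trans ?_
      exact_mod_cast hrs.le
    refine le_of_forall_gt_imp_ge_of_dense fun e he => ?_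
    induction e with
    | bot => exact absurd he (not_lt_bot)
    | top => exact le_top
    | coe s => exact key s (by exact_mod_cast he)
  · refine le_sInf ?_
    rintro _ ⟨r, -, rfl, hr⟩
    exact_mod_cast csInf_le (bdd h0) hr

omit h1 in
theorem mem_tree (u : List ℕ) : u ∈ treeAtExplosion x ↔ birth x u < tau x := by
  unfold treeAtExplosion
  rw [explosionTime_eq h0 h2]
  exact EReal.coe_lt_coe_iff

omit h1 in
theorem explosionTime_lt_top : explosionTime x < ⊤ := by
  rw [explosionTime_eq h0 h2]
  exact EReal.coe_lt_top _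

/-- all degrees are finite -/
theorem degrees (u : List ℕ) : {i | i :: u ∈ treeAtExplosion x}.Finite := by
  refine (finite_children h0 h1 u (tau x)).subset fun i hi => ?_
  exact ((mem_tree h0 h2 _).1 hi).le

/-- the tree is infinite -/
theorem tree_infinite : (treeAtExplosion x).Infinite := by
  intro hfin
  set τ := tau x with hτ
  -- the individuals born up to the explosion time
  have hB : (bornBy x τ).Finite := by
    have h3 : bornBy x τ ⊆ {[]} ∪ ⋃ u ∈ treeAtExplosion x, (fun i => i :: u) ''
        {i | birth x (i :: u) ≤ τ} := by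
      rintro (_ | ⟨i, u⟩) hv
      · exact Or.inl rfl
      · refine Or.inr ?_
        rw [mem_iUnion₂]
        refine ⟨u, (mem_tree h0 h2 u).2 ((birth_lt h0 i u).trans_le hv), i, hv, rfl⟩
    refine Set.Finite.subset ?_ h3
    refine (Set.finite_singleton _).union (hfin.biUnion fun u _ => ?_)
    exact (finite_children h0 h1 u τ).image _
  -- the next births
  have hδ : ∀ u, ∃ δ > 0, ∀ i, τ < birth x (i :: u) → τ + δ ≤ birth x (i :: u) := by
    intro u
    obtain ⟨m, hm⟩ := h1 u (τ - birth x u)
    have hex : ∃ i, τ < birth x (i :: u) := by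
      refine ⟨m, ?_⟩
      have h3 := Finset.sum_le_sum_of_subset_of_nonneg (f := fun j => x (u, j))
        (Finset.range_mono (Nat.le_succ m)) (fun k _ _ => (h0 _).le)
      change τ < birth x u + ∑ j ∈ Finset.range (m + 1), x (u, j)
      linarith
    classical
    refine ⟨birth x (Nat.find hex :: u) - τ, sub_pos.2 (Nat.find_spec hex), fun i hi => ?_⟩
    have h4 : Nat.find hex ≤ i := Nat.find_min' hex hi
    have h5 := birth_mono h0 h4 u
    linarith
  choose δ hδ0 hδ using hδ
  obtain ⟨ε, hε0, hε⟩ : ∃ ε > 0, ∀ u ∈ bornBy x τ, ε ≤ δ u := by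
    have hne : (bornBy x τ).Nonempty := ⟨[], tau_nonneg h0 h2⟩
    obtain ⟨u, hu, hmin⟩ := hB.exists_minimalFor δ _ hne
    refine ⟨δ u, hδ0 u, fun v hv => ?_⟩
    rcases le_total (δ u) (δ v) with h | h
    · exact h
    · exact hmin hv h
  have hcl : ∀ v, birth x v < τ + ε → birth x v ≤ τ := by
    intro v
    induction v with
    | nil => exact fun _ => tau_nonneg h0 h2
    | cons i u ih =>
      intro hv
      have h3 : birth x u ≤ τ := ih ((birth_lt h0 i u).trans hv)
      by_contra hcon
      push Not at hcon
      have h4 := hδ u i hcon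
      have h5 := hε u h3
      linarith
  obtain ⟨r, hr, hrs⟩ := exists_lt_of_csInf_lt h2 (show tau x < τ + ε by
    rw [← hτ]; linarith)
  apply hr
  refine hB.subset fun v hv => ?_
  exact hcl v (lt_of_le_of_lt hv hrs)

end

end

end Pool.Agent.V1138.CM
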