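import Pool.Agent.V1138.CM.Two
import Pool.Agent.V1138.OM.Main
import Pool.Agent.W245.EB.CMz2

/-!
# The transcendence input for elliptic curves with complex multiplication
-/

set_option autoImplicit false
set_option linter.unusedSectionVars false

open Matrix hiding row row_apply
open scoped PeriodPair

namespace Pool.Agent.V1138.CM

open Pool.Agent.W245.EB H667R3 Pool.Agent.V1138.OM

variable {L : PeriodPair} {α : ℂ}

/-- the action of the multiplications on the quasi-periods -/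
theorem quasi_mul (h2 : IsAlgebraic ℚ L.g₂) (h3 : IsAlgebraic ℚ L.g₃) (hα : α ≠ 0)
    (hm : ∀ w ∈ L.lattice, α * w ∈ L.lattice) : ∃ (N : ℕ) (c : ℂ), 0 < N ∧ c ∈ QB ∧
      ∀ w ∈ L.lattice, α * eta L (α * w) = N * eta L w - c * w := by
  obtain ⟨c, hcQ, hc⟩ := wp_mul_alg h2 h3 hα hm
  obtain ⟨c₂, hc₂⟩ := zeta_mul hα hm hc
  set N := (ker hα hm).card with hN
  have hNpos : 0 < N := Finset.card_pos.2 ⟨0, zero_mem_ker hα hm⟩
  obtain ⟨z, -, hz, -, -⟩ := exists_generic_mul h2 h3 hα hm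
  refine ⟨N, c, hNpos, hcQ, fun w hw => ?_⟩
  have hαw := hm w hw
  have hz' : α * (z + w) ∉ L.lattice := by
    intro h
    apply hz
    have := sub_mem h hαw
    rwa [show α * (z + w) - α * w = α * z by ring] at this
  have e1 := hc₂ z hz
  have e2 := hc₂ (z + w) hz'
  rw [mul_add, zeta_add_coe L hz hαw] at e2
  have e3 : ∑ x ∈ ker hα hm, zeta L (z + w - x.out) = ∑ x ∈ ker hα hm, zeta L (z - x.out) + N * eta L w := by
    rw [hN, ← nsmul_eq_mul, ← Finset.sum_const, ← Finset.sum_add_distrib]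
    refine Finset.sum_congr rfl fun x hx => ?_
    rw [show z + w - x.out = z - x.out + w by ring, zeta_add_coe L (sub_out_notMem hz hx) hw]
  rw [e3] at e2
  linear_combination e2 - e1

/-- linear forms in the points and one period -/
theorem pts {m : ℕ} (h2 : IsAlgebraic ℚ L.g₂) (h3 : IsAlgebraic ℚ L.g₃) (u : Fin m → ℂ)
    (hu : ∀ i, u i ∈ EL L)
    (hind : ∀ β : Fin m → ℂ, (∀ i, ∀ w ∈ L.lattice, β i * w ∈ L.lattice) → ∑ i, β i * u i ∈ L.lattice → β = 0)
    {s ρ : ℂ} (hs : s ∈ QB) (hρ : ρ ∈ QB) (hsρ : s ≠ 0 ∨ ρ ≠ 0) (v : Fin m → ℂ) (n b : ℂ) (hv : ∀ i, v i ∈ QB)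
    (hn : n ∈ QB) (hb : b ∈ QB)
    (h : ∑ i, (s * zt L (u i) + ρ * u i) * v i = (s * eta L L.ω₁ + ρ * L.ω₁) * n + b) : v = 0 ∧ n = 0 := by
  have key := second_kind h2 h3 (Fin.append u ![L.ω₁]) ?_ ?_ s ρ (mem_QB.1 hs) (mem_QB.1 hρ)
    hsρ (Fin.append v ![-n]) ?_ ?_
  · constructor
    · funext i
      have := congrFun key (Fin.castAdd 1 i)
      rwa [Fin.append_left] at this
    · have := congrFun key (Fin.natAdd m 0)
      rw [Fin.append_right] at this
      exact neg_eq_zero.1 this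
  · intro r
    refine Fin.addCases (fun i => ?_) (fun i => ?_) r
    · rw [Fin.append_left]
      exact hu i
    · rw [Fin.append_right]
      fin_cases i
      exact Or.inl L.ω₁_mem_lattice
  · intro a ha h
    choose N hN hN' using ha
    -- a common denominator
    set M : ℕ := ∏ r, N r with hM
    have hMpos : 0 < M := Finset.prod_pos fun r _ => hN r
    have hMC : (M : ℂ) ≠ 0 := by exact_mod_cast hMpos.ne'
    have hMa : ∀ r, ∀ w ∈ L.lattice, (M : ℂ) * a r * w ∈ L.lattice := by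
      intro r w hw
      have e1 : M = (∏ i ∈ Finset.univ.erase r, N i) * N r := by
        rw [hM, Finset.prod_erase_mul _ _ (Finset.mem_univ r)]
      have h1 := hN' r w hw
      have h2 := L.lattice.smul_mem ((∏ i ∈ Finset.univ.erase r, N i : ℕ) : ℤ) h1
      rw [zsmul_eq_mul] at h2
      rw [e1]
      convert h2 using 1
      push_cast
      ring
    rw [Fin.sum_univ_add] at h
    simp only [Fin.append_left, Fin.append_right, Finset.univ_unique, Fin.default_eq_zero, Finset.sum_singleton,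
      Matrix.cons_val_zero] at h
    have h4 : (fun i => (M : ℂ) * a (Fin.castAdd 1 i)) = 0 := by
      refine hind _ (fun i w hw => hMa _ w hw) ?_
      have h5 : ∑ i, (M : ℂ) * a (Fin.castAdd 1 i) * u i = -((M : ℂ) * a (Fin.natAdd m 0) * L.ω₁) := by
        have h6 : ∑ i, (M : ℂ) * a (Fin.castAdd 1 i) * u i = M * ∑ i, a (Fin.castAdd 1 i) * u i := by
          rw [Finset.mul_sum]
          refine Finset.sum_congr rfl fun i _ => ?_
          ring
        rw [h6]
        linear_combination (M : ℂ) * h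
      rw [h5]
      exact neg_mem (hMa _ _ L.ω₁_mem_lattice)
    have h5 : ∀ i, a (Fin.castAdd 1 i) = 0 := by
      intro i
      have h6 := congrFun h4 i
      exact (mul_eq_zero.1 h6).resolve_left hMC
    simp only [h5, zero_mul, Finset.sum_const_zero, zero_add] at h
    have h6 := (mul_eq_zero.1 h).resolve_right (ω₁_ne_zero L)
    funext r
    refine Fin.addCases (fun i => h5 i) (fun i => ?_) r
    fin_cases i
    exact h6
  · intro r
    refine Fin.addCases (fun i => ?_) (fun i => ?_) r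
    · rw [Fin.append_left]
      exact mem_QB.1 (hv i)
    · rw [Fin.append_right]
      fin_cases i
      exact (mem_QB.1 hn).neg
  · rw [Fin.sum_univ_add]
    simp only [Fin.append_left, Fin.append_right, Finset.univ_unique, Fin.default_eq_zero, Finset.sum_singleton,
      Matrix.cons_val_zero]
    have h4 : ∑ i, v i * (s * zt L (u i) + ρ * u i) + -n * (s * zt L L.ω₁ + ρ * L.ω₁) = b := by
      have h5 : ∑ i, v i * (s * zt L (u i) + ρ * u i) = ∑ i, (s * zt L (u i) + ρ * u i) * v i :=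
        Finset.sum_congr rfl fun i _ => mul_comm _ _
      rw [h5, h, zt_of_mem L.ω₁_mem_lattice]
      ring
    rw [h4]
    exact mem_QB.1 hb

/-- the transcendence of the periods -/
theorem per_ne (h2 : IsAlgebraic ℚ L.g₂) (h3 : IsAlgebraic ℚ L.g₃) {s ρ : ℂ} (hs : s ∈ QB) (hρ : ρ ∈ QB)
    (hsρ : s ≠ 0 ∨ ρ ≠ 0) : s * eta L L.ω₁ + ρ * L.ω₁ ∉ QB := by
  intro h
  have := (pts h2 h3 (m := 0) (fun _ => 0) (fun i => i.elim0) (fun β _ _ => funext fun i => i.elim0) hs hρ hsρ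
    (fun _ => 0) 1 (-(s * eta L L.ω₁ + ρ * L.ω₁)) (fun i => i.elim0) QB.one_mem (QB.neg_mem h) (by
      simp)).2
  exact one_ne_zero this

/-- the data of the complex multiplication -/
structure CMd (L : PeriodPair) (A : Matrix (Fin 2) (Fin 2) ℤ) (α ρ r τ τ' : ℂ) : Prop where
  hα : α ∈ QB
  hρ : ρ ∈ QB
  hr : r ∈ QB
  hτ : τ ∈ QB
  hτ' : τ' ∈ QB
  ne : α ≠ ρ
  tr : α + ρ = (A 0 0 + A 1 1 : ℤ)
  rel : pm L * A.map (Int.cast : ℤ → ℂ) = PP r * diagonal ![α, ρ] * PP (-r) * pm L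
  fac : PP (-r) * pm L = diagonal ![L.ω₁, eta L L.ω₁ - r * L.ω₁] * !![1, τ; 1, τ']

theorem exists_CMd (h2 : IsAlgebraic ℚ L.g₂) (h3 : IsAlgebraic ℚ L.g₃) (hα : α.im ≠ 0)
    {A : Matrix (Fin 2) (Fin 2) ℤ} (hA₁ : α * L.ω₁ = A 0 0 * L.ω₁ + A 1 0 * L.ω₂)
    (hA₂ : α * L.ω₂ = A 0 1 * L.ω₁ + A 1 1 * L.ω₂) : ∃ ρ r τ τ' : ℂ, CMd L A α ρ r τ τ' := by
  have hα0 : α ≠ 0 := by
    rintro rfl
    exact hα (by simp)
  have hm : ∀ w ∈ L.lattice, α * w ∈ L.lattice := by
    intro w hw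
    obtain ⟨a, b, rfl⟩ := PeriodPair.mem_lattice.1 hw
    refine PeriodPair.mem_lattice.2 ⟨a * A 0 0 + b * A 0 1, a * A 1 0 + b * A 1 1, ?_⟩
    push_cast
    linear_combination -(a : ℂ) * hA₁ - (b : ℂ) * hA₂
  have hαQ : α ∈ QB := mem_QB.2 (alg_of_mul hm)
  obtain ⟨N, c, hN, hc, hq⟩ := quasi_mul h2 h3 hα0 hm
  have hNne := ne_conj hα hN
  set ρ : ℂ := N / α with hρ
  have hρQ : ρ ∈ QB := QB.div_mem (natCast_mem QB N) hαQ
  have hαρ : α - ρ ≠ 0 := sub_ne_zero.2 hNne.symm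
  set r : ℂ := -(c / α) / (α - ρ) with hr
  have hrQ : r ∈ QB := QB.div_mem (QB.neg_mem (QB.div_mem hc hαQ)) (QB.sub_mem hαQ hρQ)
  have h0 := ω₁_ne_zero L
  -- the quasi-periods
  have hη : ∀ w ∈ L.lattice, eta L (α * w) = ρ * eta L w + r * (α - ρ) * w := by
    intro w hw
    have h4 := hq w hw
    have h5 : r * (α - ρ) = -(c / α) := by
      rw [hr]
      field_simp
    rw [h5, hρ]
    field_simp
    linear_combination h4
  have hlin : ∀ a b : ℤ, eta L (a * L.ω₁ + b * L.ω₂) = a * eta L L.ω₁ + b * eta L L.ω₂ := by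
    intro a b
    have m1 : (a : ℂ) * L.ω₁ ∈ L.lattice := by
      have := L.lattice.smul_mem a L.ω₁_mem_lattice
      rwa [zsmul_eq_mul] at this
    have m2 : (b : ℂ) * L.ω₂ ∈ L.lattice := by
      have := L.lattice.smul_mem b L.ω₂_mem_lattice
      rwa [zsmul_eq_mul] at this
    rw [eta_add L m1 m2, eta_zsmul L L.ω₁_mem_lattice, eta_zsmul L L.ω₂_mem_lattice]
  have q1 := hη _ L.ω₁_mem_lattice
  rw [hA₁, hlin] at q1
  have q2 := hη _ L.ω₂_mem_lattice
  rw [hA₂, hlin] at q2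
  have hrel : pm L * A.map (Int.cast : ℤ → ℂ) = PP r * diagonal ![α, ρ] * PP (-r) * pm L := by
    rw [pd_eq]
    ext i j
    rw [Matrix.mul_apply, Matrix.mul_apply, Fin.sum_univ_two, Fin.sum_univ_two]
    fin_cases i <;> fin_cases j
    · simp [pm]
      linear_combination -hA₁
    · simp [pm]
      linear_combination -hA₂
    · simp [pm]
      linear_combination q1
    · simp [pm]
      linear_combination q2
  have hdet0 : (pm L).det ≠ 0 := by
    rw [det_pm]
    exact leg_ne L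
  have htr : α + ρ = (A 0 0 + A 1 1 : ℤ) := by
    have h4 : (pm L * A.map (Int.cast : ℤ → ℂ) * (pm L)⁻¹).trace =
        (PP r * diagonal ![α, ρ] * PP (-r) * pm L * (pm L)⁻¹).trace := by rw [hrel]
    rw [Matrix.mul_assoc (PP r * diagonal ![α, ρ] * PP (-r)), Matrix.mul_nonsing_inv _ (isUnit_iff_ne_zero.2 hdet0), Matrix.mul_one, Matrix.trace_mul_comm,
      ← Matrix.mul_assoc, Matrix.nonsing_inv_mul _ (isUnit_iff_ne_zero.2 hdet0), Matrix.one_mul, pd_eq,
      Matrix.trace_fin_two, Matrix.trace_fin_two] at h4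
    simp at h4
    push_cast
    exact h4.symm
  have hA10 : (A 1 0 : ℂ) ≠ 0 := by
    intro h4
    rw [h4, zero_mul, add_zero] at hA₁
    have h5 := mul_right_cancel₀ h0 hA₁
    apply hα
    rw [h5]
    exact Complex.intCast_im _
  refine ⟨ρ, r, (α - A 0 0) / A 1 0, (ρ - A 0 0) / A 1 0, hαQ, hρQ, hrQ,
    QB.div_mem (QB.sub_mem hαQ (intCast_mem QB _)) (intCast_mem QB _),
    QB.div_mem (QB.sub_mem hρQ (intCast_mem QB _)) (intCast_mem QB _), hNne.symm, htr, hrel, ?_⟩
  ext i j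
  rw [Matrix.diagonal_mul, Matrix.mul_apply, Fin.sum_univ_two]
  fin_cases i <;> fin_cases j
  · simp [PP, pm]
  · simp [PP, pm]
    field_simp
    linear_combination -hA₁
  · simp [PP, pm]
    ring
  · simp [PP, pm]
    field_simp
    linear_combination q1 + r * hA₁

end Pool.Agent.V1138.CM
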