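import Pool.Agent.V1138.OM.Fin

/-!
# Subgroups with diagonal reductive part which contain a generic point
-/

set_option autoImplicit false
set_option linter.unusedSectionVars false

open Matrix MvPolynomial

namespace Pool.Agent.V1138.CM

open Pool.Agent.TH127.PT Pool.Agent.TH119.MX Pool.Agent.TH119.DR Pool.Agent.Y123.ST Pool.Agent.V1138.OM

variable {m l : ℕ} {K : Subfield ℂ}

theorem lie_zero : (lie 0 0 0 0 : Matrix (Idx m l) (Idx m l) ℂ) = 0 := by
  have := lie_smul (m := m) (l := l) 0 0 0 0 0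
  simpa using this.symm

theorem lie_neg (X : Matrix (Fin 2) (Fin 2) ℂ) (A : Matrix (Fin 2) (Fin m) ℂ) (B : Matrix (Fin m) (Fin m) ℂ)
    (s : Matrix Unit (Fin l) ℂ) : -lie X A B s = lie (-X) (-A) (-B) (-s) := by
  rw [← neg_one_smul ℂ (lie X A B s), lie_smul]
  simp

theorem lie_sub (X X' : Matrix (Fin 2) (Fin 2) ℂ) (A A' : Matrix (Fin 2) (Fin m) ℂ) (B B' : Matrix (Fin m) (Fin m) ℂ)
    (s s' : Matrix Unit (Fin l) ℂ) : lie X A B s - lie X' A' B' s' = lie (X - X') (A - A') (B - B') (s - s') := by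
  rw [sub_eq_add_neg, lie_neg, lie_add]
  simp [sub_eq_add_neg]

/-- Cayley-Hamilton -/
theorem ch_two (X : Matrix (Fin 2) (Fin 2) ℂ) : X * X - X.trace • X = -(X.det • 1) := by
  ext i j
  fin_cases i <;> fin_cases j <;>
    simp [Matrix.mul_apply, Fin.sum_univ_two, Matrix.det_fin_two, Matrix.trace_fin_two] <;> ring

/-- the homogeneous parts -/
theorem graded' {H : Set (Matrix (Idx m l) (Idx m l) ℂ)} (hH : Sbg K H) {X : Matrix (Fin 2) (Fin 2) ℂ}
    (hdet : X.det ≠ 0) (htr : X.trace ≠ 0) (h1 : lie X 0 0 0 ∈ LA H)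
    {w : Matrix (Idx m l) (Idx m l) ℂ} (hw : w ∈ LA H) (hc : by' w * X = X * by' w) :
    lie (by' w) 0 0 0 ∈ LA H ∧ lie 0 (bV w) 0 0 ∈ LA H ∧ lie 0 0 (bW w) (bt w) ∈ LA H := by
  have h2 := (shape hH.le hH.one hw).1
  set Y := by' w with hY
  set A := bV w with hA
  set B := bW w with hB
  set s := bt w with hs
  set τ := X.trace with hτ
  have h3 : lie 0 (X * A) (τ • B) (τ • s) ∈ LA H := by
    have := LA_bracket h1 hw
    rw [h2, lie_bracket] at this
    simpa [hc, ← hτ] using this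
  have h4 : lie 0 (X * (X * A)) (τ • (τ • B)) (τ • (τ • s)) ∈ LA H := by
    have := LA_bracket h1 h3
    rw [lie_bracket] at this
    simpa [← hτ] using this
  have h6 : lie 0 A 0 0 ∈ LA H := by
    have := (LA H).smul_mem (-(X.det)⁻¹) ((LA H).sub_mem h4 ((LA H).smul_mem τ h3))
    rw [lie_smul, lie_sub, lie_smul] at this
    convert this using 1
    congr 1
    · simp
    · have h7 : X * (X * A) - τ • (X * A) = -(X.det • A) := by
        rw [← Matrix.mul_assoc, ← Matrix.smul_mul, ← Matrix.sub_mul, ch_two, Matrix.neg_mul, Matrix.smul_mul,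
          Matrix.one_mul]
      rw [h7, smul_neg, neg_smul, neg_neg, smul_smul, inv_mul_cancel₀ hdet, one_smul]
    · simp
    · simp
  have h5 : lie 0 0 B s ∈ LA H := by
    have h8 : lie 0 (X * A) 0 0 ∈ LA H := by
      have := LA_bracket h1 h6
      rw [lie_bracket] at this
      simpa using this
    have := (LA H).smul_mem τ⁻¹ ((LA H).sub_mem h3 h8)
    rw [lie_sub, lie_smul] at this
    convert this using 1
    congr 1
    · simp
    · simp
    · rw [sub_zero, smul_smul, inv_mul_cancel₀ htr, one_smul]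
    · rw [sub_zero, smul_smul, inv_mul_cancel₀ htr, one_smul]
  refine ⟨?_, h6, h5⟩
  have := (LA H).sub_mem ((LA H).sub_mem hw h6) h5
  rw [h2, lie_sub, lie_sub] at this
  convert this using 1
  congr 1
  · simp
  · simp
  · simp
  · simp

/-- subgroups with diagonal reductive part -/
structure Dgn (H : Set (Matrix (Idx m l) (Idx m l) ℂ)) : Prop where
  d01 : ∀ x ∈ H, by' x 0 1 = 0
  d10 : ∀ x ∈ H, by' x 1 0 = 0

theorem coord_LA {H : Set (Matrix (Idx m l) (Idx m l) ℂ)} (h1 : (1 : Matrix (Idx m l) (Idx m l) ℂ) ∈ H)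
    {w : Matrix (Idx m l) (Idx m l) ℂ} (hw : w ∈ LA H) (b : Idx m l × Idx m l) (hb : ∀ x ∈ H, x b.1 b.2 = 0) :
    w b.1 b.2 = 0 := by
  have h5 := LA_dd h1 hw (P := X b) fun z hz => by
    rw [eval_X]
    exact hb z hz
  rw [dd_X] at h5
  exact h5

theorem Dgn.w01 {H : Set (Matrix (Idx m l) (Idx m l) ℂ)} (hD : Dgn H) (h1 : (1 : Matrix (Idx m l) (Idx m l) ℂ) ∈ H)
    {w : Matrix (Idx m l) (Idx m l) ℂ} (hw : w ∈ LA H) : by' w 0 1 = 0 :=
  coord_LA h1 hw (Sum.inl (Sum.inr (Sum.inl 0)), Sum.inl (Sum.inr (Sum.inl 1))) hD.d01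

theorem Dgn.w10 {H : Set (Matrix (Idx m l) (Idx m l) ℂ)} (hD : Dgn H) (h1 : (1 : Matrix (Idx m l) (Idx m l) ℂ) ∈ H)
    {w : Matrix (Idx m l) (Idx m l) ℂ} (hw : w ∈ LA H) : by' w 1 0 = 0 :=
  coord_LA h1 hw (Sum.inl (Sum.inr (Sum.inl 1)), Sum.inl (Sum.inr (Sum.inl 0))) hD.d10

theorem diag_comm {X Y : Matrix (Fin 2) (Fin 2) ℂ} (h1 : X 0 1 = 0) (h2 : X 1 0 = 0) (h3 : Y 0 1 = 0)
    (h4 : Y 1 0 = 0) : X * Y = Y * X := by
  ext i j
  fin_cases i <;> fin_cases j <;> simp [Matrix.mul_apply, Fin.sum_univ_two, h1, h2, h3, h4, mul_comm]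

/-- a generic point with diagonal reductive part -/
structure Gen (K : Subfield ℂ) (y : Matrix (Fin 2) (Fin 2) ℂ) : Prop where
  y01 : y 0 1 = 0
  y10 : y 1 0 = 0
  a : y 0 0 ∉ K
  b : y 1 1 ∉ K
  ab : y 0 0 * y 1 1 ∉ K
  q : y 0 0 / y 1 1 ∉ K

theorem Gen.a0 {y : Matrix (Fin 2) (Fin 2) ℂ} (h : Gen K y) : y 0 0 ≠ 0 := fun h0 => h.a (h0 ▸ K.zero_mem)
theorem Gen.b0 {y : Matrix (Fin 2) (Fin 2) ℂ} (h : Gen K y) : y 1 1 ≠ 0 := fun h0 => h.b (h0 ▸ K.zero_mem)

theorem dlog (D : Derivation K ℂ ℂ) {a b p q : ℂ} (hb : b ≠ 0) (h1 : D a = p * a) (h2 : D b = q * b) :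
    D (a / b) = (p - q) * (a / b) := by
  have h3 : b * (a / b) = a := by field_simp
  have h4 := congrArg D h3
  rw [D.leibniz, h1, h2, smul_eq_mul, smul_eq_mul] at h4
  have h5 : b * D (a / b) = b * ((p - q) * (a / b)) := by
    have h6 : a / b * (q * b) = q * a := by field_simp
    rw [h6] at h4
    have h7 : b * ((p - q) * (a / b)) = (p - q) * a := by field_simp
    rw [h7]
    linear_combination h4
  exact mul_left_cancel₀ hb h5

/-- an algebraic element with nonzero weights -/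
theorem exists_xi (hKa : ∀ z : ℂ, (∀ D : Derivation K ℂ ℂ, D z = 0) → z ∈ K)
    {H : Set (Matrix (Idx m l) (Idx m l) ℂ)} (hH : Sbg K H) (hD : Dgn H) {C : Matrix (Idx m l) (Idx m l) ℂ}
    (hC : C ∈ H) (hG : Gen K (by' C)) : ∃ ξ ∈ LA H, (∀ i j, ξ i j ∈ K) ∧ by' ξ 0 0 ≠ 0 ∧ by' ξ 1 1 ≠ 0 ∧
      by' ξ 0 0 + by' ξ 1 1 ≠ 0 ∧ by' ξ 0 0 ≠ by' ξ 1 1 := by
  let φ : Matrix (Idx m l) (Idx m l) ℂ →ₗ[ℂ] (Fin 2 → ℂ) :=
    { toFun := fun w => ![by' w 0 0, by' w 1 1]
      map_add' := fun x y => by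
        funext i
        fin_cases i <;> rfl
      map_smul' := fun a x => by
        funext i
        fin_cases i <;> rfl }
  let M : Submodule ℂ (Fin 2 → ℂ) := (LA H).map φ
  have hMf : ∀ (f : ℂ →ₗ[K] ℂ), ∀ v ∈ M, (fun a => f (v a)) ∈ M := by
    rintro f _ ⟨w, hw, rfl⟩
    refine ⟨w.map f, LA_map hH.sub f hw, ?_⟩
    funext i
    fin_cases i <;> rfl
  -- the logarithmic derivatives
  have hlog : ∀ D : Derivation K ℂ ℂ, ∃ w ∈ LA H, D (by' C 0 0) = by' w 0 0 * by' C 0 0 ∧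
      D (by' C 1 1) = by' w 1 1 * by' C 1 1 := by
    intro D
    obtain ⟨w, hw, -, -, e1, -, -⟩ := logder_blocks hH hC D
    refine ⟨w, hw, ?_, ?_⟩
    · have := congrFun (congrFun e1 0) 0
      rw [Matrix.map_apply, Matrix.mul_apply, Fin.sum_univ_two, hG.y10, mul_zero, add_zero] at this
      exact this
    · have := congrFun (congrFun e1 1) 1
      rw [Matrix.map_apply, Matrix.mul_apply, Fin.sum_univ_two, hG.y01, mul_zero, zero_add] at this
      exact this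
  have hder : ∀ z : ℂ, z ∉ K → ∃ D : Derivation K ℂ ℂ, D z ≠ 0 := by
    intro z hz
    by_contra hcon
    push Not at hcon
    exact hz (hKa z hcon)
  have F1 : ∃ w ∈ LA H, by' w 0 0 ≠ 0 := by
    obtain ⟨D, hD0⟩ := hder _ hG.a
    obtain ⟨w, hw, e1, -⟩ := hlog D
    exact ⟨w, hw, fun h0 => hD0 (by rw [e1, h0, zero_mul])⟩
  have F2 : ∃ w ∈ LA H, by' w 1 1 ≠ 0 := by
    obtain ⟨D, hD0⟩ := hder _ hG.b
    obtain ⟨w, hw, -, e1⟩ := hlog D
    exact ⟨w, hw, fun h0 => hD0 (by rw [e1, h0, zero_mul])⟩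
  have F3 : ∃ w ∈ LA H, by' w 0 0 + by' w 1 1 ≠ 0 := by
    obtain ⟨D, hD0⟩ := hder _ hG.ab
    obtain ⟨w, hw, e1, e2⟩ := hlog D
    refine ⟨w, hw, fun h0 => hD0 ?_⟩
    rw [D.leibniz, e1, e2, smul_eq_mul, smul_eq_mul]
    linear_combination (by' C 0 0 * by' C 1 1) * h0
  have F4 : ∃ w ∈ LA H, by' w 0 0 ≠ by' w 1 1 := by
    obtain ⟨D, hD0⟩ := hder _ hG.q
    obtain ⟨w, hw, e1, e2⟩ := hlog D
    refine ⟨w, hw, fun h0 => hD0 ?_⟩
    rw [dlog D hG.b0 e1 e2, h0, sub_self, zero_mul]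
  by_cases hM : M = ⊤
  · have h1 : ![(1 : ℂ), 2] ∈ M := by rw [hM]; trivial
    obtain ⟨w, hw, hw1⟩ := h1
    have w0 : by' w 0 0 = 1 := congrFun hw1 0
    have w1 : by' w 1 1 = 2 := congrFun hw1 1
    obtain ⟨f, hf, hf1⟩ := lin_one (K := K)
    have hf2 : f 2 = 2 := by
      rw [show (2 : ℂ) = 1 + 1 by norm_num, map_add, hf1]
    refine ⟨w.map f, LA_map hH.sub f hw, fun i j => hf _, ?_, ?_, ?_, ?_⟩
    all_goals rw [by_map]; simp only [Matrix.map_apply, w0, w1, hf1, hf2]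
    · norm_num
    · norm_num
    · norm_num
    · norm_num
  · obtain ⟨u, huK, hu0, hu⟩ := exists_func (K := K) M hMf hM
    have hu' : ∀ w ∈ LA H, by' w 0 0 * u 0 + by' w 1 1 * u 1 = 0 := by
      intro w hw
      have := hu _ ⟨w, hw, rfl⟩
      rw [Fin.sum_univ_two] at this
      exact this
    have n1 : u 1 ≠ 0 := by
      intro h0
      obtain ⟨w, hw, hw0⟩ := F1
      have h1 := hu' w hw
      rw [h0, mul_zero, add_zero] at h1
      apply hu0
      funext i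
      fin_cases i
      · exact (mul_eq_zero.1 h1).resolve_left hw0
      · exact h0
    have n0 : u 0 ≠ 0 := by
      intro h0
      obtain ⟨w, hw, hw0⟩ := F2
      have h1 := hu' w hw
      rw [h0, mul_zero, zero_add] at h1
      exact n1 ((mul_eq_zero.1 h1).resolve_left hw0)
    have n2 : u 0 ≠ u 1 := by
      intro h0
      obtain ⟨w, hw, hw0⟩ := F3
      have h1 := hu' w hw
      rw [h0, ← add_mul] at h1
      exact n1 ((mul_eq_zero.1 h1).resolve_left hw0)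
    have n3 : u 0 ≠ -u 1 := by
      intro h0
      obtain ⟨w, hw, hw0⟩ := F4
      have h1 := hu' w hw
      rw [h0] at h1
      have h2 : (by' w 1 1 - by' w 0 0) * u 1 = 0 := by linear_combination h1
      exact hw0 (sub_eq_zero.1 ((mul_eq_zero.1 h2).resolve_right n1)).symm
    obtain ⟨w, hw, hw0⟩ := F1
    obtain ⟨f, hf, hf0⟩ := exists_lin (K := K) hw0
    have hξ := LA_map hH.sub f hw
    have hrel := hu' _ hξ
    set ξ := w.map f with hξd
    have p0 : by' ξ 0 0 ≠ 0 := hf0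
    refine ⟨ξ, hξ, fun i j => hf _, p0, ?_, ?_, ?_⟩
    · intro h0
      rw [h0, zero_mul, add_zero] at hrel
      exact (mul_ne_zero p0 n0) hrel
    · intro h0
      have h1 : by' ξ 0 0 * (u 0 - u 1) = 0 := by linear_combination hrel - u 1 * h0
      exact (mul_ne_zero p0 (sub_ne_zero.2 n2)) h1
    · intro h0
      have h1 : by' ξ 0 0 * (u 0 + u 1) = 0 := by
        rw [← h0] at hrel
        linear_combination hrel
      refine (mul_ne_zero p0 ?_) h1
      intro h2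
      exact n3 (by linear_combination h2)

end Pool.Agent.V1138.CM
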