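import Pool.Agent.V1138.CM.Prob

/-!
# The law of the example
-/

open Filter Topology Set MeasureTheory ProbabilityTheory

namespace Pool.Agent.V1138.CM

noncomputable section

/-- the sizes -/
def L (n : ℕ) : ℕ := 2 ^ ((n + 3) ^ 2)

theorem L_strictMono : StrictMono L := by
  intro m n h
  unfold L
  apply Nat.pow_lt_pow_right (by norm_num)
  exact Nat.pow_lt_pow_left (by omega) (by norm_num)

/-- the special indices -/
def Sp (j : ℕ) : Prop := ∃ n, j = L n

open Classical in
/-- the waiting time number `j` as a function of a uniform variable `v` on `(0, 1]` -/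
def g (j : ℕ) (v : ℝ) : ℝ := if Sp j ∧ 1 / 2 < v then 1 else (1 / 2) ^ j * v

theorem g_meas (j : ℕ) : Measurable (g j) := by
  classical
  unfold g
  refine Measurable.ite ?_ measurable_const (measurable_const.mul measurable_id)
  by_cases h : Sp j
  · simp only [h, true_and]
    exact measurableSet_Ioi
  · simp [h]

/-- the law of the waiting time number `j` -/
def nu (j : ℕ) : Measure ℝ := (volume.restrict (Ioc (0 : ℝ) 1)).map (g j)

instance : IsProbabilityMeasure (volume.restrict (Ioc (0 : ℝ) 1)) := ⟨by simp⟩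

instance (j : ℕ) : IsProbabilityMeasure (nu j) :=
  Measure.isProbabilityMeasure_map (g_meas j).aemeasurable

theorem nu_pos (j : ℕ) : ∀ᵐ t ∂(nu j), 0 < t := by
  unfold nu
  rw [ae_map_iff (g_meas j).aemeasurable measurableSet_Ioi]
  filter_upwards [ae_restrict_mem measurableSet_Ioc] with v hv
  unfold g
  split_ifs
  · exact one_pos
  · exact mul_pos (by positivity) hv.1

theorem nu_ge (j : ℕ) (B : Set ℝ) (hB : MeasurableSet B) (a b : ℝ) (ha : 0 ≤ a) (hab : a ≤ b)
    (hb : b ≤ 1) (h : ∀ v ∈ Ioc a b, g j v ∈ B) : b - a ≤ (nu j).real B := by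
  unfold nu Measure.real
  rw [Measure.map_apply (g_meas j) hB]
  have h1 : (volume.restrict (Ioc (0 : ℝ) 1)) (Ioc a b) ≤
      (volume.restrict (Ioc (0 : ℝ) 1)) (g j ⁻¹' B) := measure_mono h
  have h2 : (volume.restrict (Ioc (0 : ℝ) 1)) (Ioc a b) = ENNReal.ofReal (b - a) := by
    rw [Measure.restrict_apply measurableSet_Ioc, inter_eq_self_of_subset_left]
    · simp
    · exact Ioc_subset_Ioc ha hb
  rw [h2] at h1
  have h3 := ENNReal.toReal_mono (measure_ne_top _ _) h1
  rwa [ENNReal.toReal_ofReal (sub_nonneg.2 hab)] at h3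

theorem nu_Iic (j m : ℕ) : (1 / 2 : ℝ) ^ (m + 1) ≤ (nu j).real (Iic ((1 / 2) ^ (j + m + 1))) := by
  have h1 : (1 / 2 : ℝ) ^ (m + 1) ≤ 1 / 2 := by
    calc (1 / 2 : ℝ) ^ (m + 1) ≤ (1 / 2) ^ 1 :=
          pow_le_pow_of_le_one (by norm_num) (by norm_num) (by omega)
      _ = 1 / 2 := pow_one _
  have h := nu_ge j (Iic ((1 / 2) ^ (j + m + 1))) measurableSet_Iic 0 ((1 / 2) ^ (m + 1)) le_rfl
    (by positivity) (by linarith) ?_
  · simpa using h
  · intro v hv
    unfold g
    rw [if_neg (fun h => by linarith [h.2, hv.2])]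
    rw [mem_Iic, add_assoc, pow_add]
    exact mul_le_mul_of_nonneg_left hv.2 (by positivity)

theorem nu_Iic_half (j : ℕ) : 1 / 2 ≤ (nu j).real (Iic ((1 / 2) ^ j)) := by
  have h := nu_ge j (Iic ((1 / 2) ^ j)) measurableSet_Iic 0 (1 / 2) le_rfl (by norm_num)
    (by norm_num) ?_
  · simpa using h
  · intro v hv
    unfold g
    rw [if_neg (fun h => by linarith [h.2, hv.2])]
    rw [mem_Iic]
    have : (0 : ℝ) ≤ (1 / 2) ^ j := by positivity
    nlinarith [hv.2]

theorem nu_Iic_one (j : ℕ) (hj : ¬ Sp j) : 1 ≤ (nu j).real (Iic ((1 / 2) ^ j)) := by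
  have h := nu_ge j (Iic ((1 / 2) ^ j)) measurableSet_Iic 0 1 le_rfl (by norm_num) le_rfl ?_
  · simpa using h
  · intro v hv
    unfold g
    rw [if_neg (fun h => hj h.1)]
    rw [mem_Iic]
    have : (0 : ℝ) ≤ (1 / 2) ^ j := by positivity
    nlinarith [hv.2]

theorem nu_one (n : ℕ) : 1 / 2 ≤ (nu (L n)).real {1} := by
  have h := nu_ge (L n) {1} (measurableSet_singleton _) (1 / 2) 1 (by norm_num) (by norm_num)
    le_rfl ?_
  · linarith
  · intro v hv
    unfold g
    rw [if_pos ⟨⟨n, rfl⟩, hv.1⟩]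
    rfl

/-- the bounds -/
def c (n j : ℕ) : ℝ := if j < n + 2 then (1 / 2) ^ (j + (n + 1) + 1) else (1 / 2) ^ j

/-- lower bound for the probability -/
def q (n : ℕ) : ℝ := (1 / 2) ^ ((n + 2) * (n + 2) + (n + 1))

theorem q_nonneg (n : ℕ) : 0 ≤ q n := by unfold q; positivity

theorem q_le_one (n : ℕ) : q n ≤ 1 := pow_le_one₀ (by norm_num) (by norm_num)

theorem q_mul_L (n : ℕ) : 2 ≤ q n * L n := by
  unfold q L
  push_cast
  have h1 : (n + 3) ^ 2 = ((n + 2) * (n + 2) + (n + 1)) + (n + 4) := by ring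
  rw [h1, pow_add (2 : ℝ), ← mul_assoc, ← mul_pow]
  norm_num
  calc (2 : ℝ) = 2 ^ 1 := by norm_num
    _ ≤ 2 ^ (n + 4) := pow_le_pow_right₀ (by norm_num) (by omega)

theorem sum_c (n m : ℕ) : ∑ j ∈ Finset.range m, c n j ≤ (1 / 2) ^ n := by
  have hs : ∀ k, ∑ j ∈ Finset.range k, (1 / 2 : ℝ) ^ j ≤ 2 := by
    intro k
    have h1 : Summable fun j : ℕ => (1 / 2 : ℝ) ^ j := summable_geometric_two
    have h2 := h1.sum_le_tsum (Finset.range k) (fun j _ => by positivity)
    rwa [tsum_geometric_two] at h2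
  have h1 : ∀ j, c n j ≤ (1 / 2) ^ (n + 2) * (1 / 2) ^ j +
      (if n + 2 ≤ j then (1 / 2) ^ j else 0) := by
    intro j
    unfold c
    split_ifs with h h' h'
    · omega
    · rw [add_zero, ← pow_add]
      apply le_of_eq
      congr 1
      omega
    · have : (0 : ℝ) ≤ (1 / 2) ^ (n + 2) * (1 / 2) ^ j := by positivity
      linarith
    · omega
  refine (Finset.sum_le_sum fun j _ => h1 j).trans ?_
  rw [Finset.sum_add_distrib, ← Finset.mul_sum]
  have h2 : ∑ j ∈ Finset.range m, (if n + 2 ≤ j then (1 / 2 : ℝ) ^ j else 0) ≤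
      (1 / 2) ^ (n + 2) * 2 := by
    have h3 : ∀ m, ∑ j ∈ Finset.range m, (if n + 2 ≤ j then (1 / 2 : ℝ) ^ j else 0) ≤
        (1 / 2) ^ (n + 2) * ∑ j ∈ Finset.range (m - (n + 2)), (1 / 2 : ℝ) ^ j := by
      intro m
      induction m with
      | zero => simp
      | succ m ih =>
        rw [Finset.sum_range_succ]
        split_ifs with h
        · have e : m + 1 - (n + 2) = (m - (n + 2)) + 1 := by omega
          rw [e, Finset.sum_range_succ, mul_add, ← pow_add]
          have e2 : n + 2 + (m - (n + 2)) = m := by omega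
          rw [e2]
          linarith
        · have e : m - (n + 2) = 0 := by omega
          have e2 : m + 1 - (n + 2) = 0 := by omega
          rw [e] at ih
          rw [e2]
          linarith
    exact (h3 m).trans (mul_le_mul_of_nonneg_left (hs _) (by positivity))
  have h4 := mul_le_mul_of_nonneg_left (hs m) (show (0 : ℝ) ≤ (1 / 2) ^ (n + 2) by positivity)
  have h5 : (1 / 2 : ℝ) ^ (n + 2) * 4 = (1 / 2) ^ n := by rw [pow_add]; ring
  linarith

theorem real_A_ge (n : ℕ) (u : List ℕ) : q n ≤ (cmjLaw nu).real (A L c n u) := by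
  classical
  have h1 : A L c n u = Set.pi ((Finset.range (L (n + 1))).map ⟨fun j => (u, j), fun a b h => by
      simpa using h⟩ : Finset (List ℕ × ℕ)) (fun a => Iic (c n a.2)) := by
    ext x
    simp only [A, Finset.mem_range, mem_ofPred_eq, Finset.coe_map, Finset.coe_range, Set.mem_pi,
      mem_image, mem_Iio, mem_Iic, forall_exists_index, and_imp]
    constructor
    · rintro h _ j hj rfl
      exact h j hj
    · intro h j hj
      exact h _ j hj rfl
  have h2 : (cmjLaw nu).real (A L c n u) = ∏ j ∈ Finset.range (L (n + 1)),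
      (nu j).real (Iic (c n j)) := by
    unfold Measure.real cmjLaw
    rw [h1, Measure.infinitePi_pi _ (fun _ _ => measurableSet_Iic), Finset.prod_map,
      ENNReal.toReal_prod]
    rfl
  rw [h2]
  have h3 : ∀ j, (if j < n + 2 then (1 / 2 : ℝ) ^ (n + 2) else 1) *
      (if Sp j then 1 / 2 else 1) ≤ (nu j).real (Iic (c n j)) := by
    intro j
    unfold c
    by_cases hj : j < n + 2
    · rw [if_pos hj, if_pos hj]
      refine le_trans ?_ (nu_Iic j (n + 1))
      refine (mul_le_mul_of_nonneg_left (?_ : _ ≤ (1 : ℝ)) (by positivity)).trans ?_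
      · split_ifs <;> norm_num
      · rw [mul_one]
    · rw [if_neg hj, if_neg hj, one_mul]
      split_ifs with hs
      · exact nu_Iic_half j
      · exact nu_Iic_one j hs
  refine le_trans ?_ (Finset.prod_le_prod (fun j _ => ?_) fun j _ => h3 j)
  · rw [Finset.prod_mul_distrib]
    have h4 : ∏ j ∈ Finset.range (L (n + 1)), (if j < n + 2 then (1 / 2 : ℝ) ^ (n + 2) else 1) =
        (1 / 2) ^ ((n + 2) * (n + 2)) := by
      rw [Finset.prod_ite, Finset.prod_const, Finset.prod_const_one, mul_one]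
      have h5 : (Finset.range (L (n + 1))).filter (fun j => j < n + 2) = Finset.range (n + 2) := by
        ext j
        simp only [Finset.mem_filter, Finset.mem_range]
        have h6 : n + 2 ≤ L (n + 1) := by
          unfold L
          calc n + 2 ≤ (n + 1 + 3) ^ 2 := by nlinarith
            _ ≤ 2 ^ ((n + 1 + 3) ^ 2) := Nat.lt_two_pow_self.le
        omega
      rw [h5, Finset.card_range, ← pow_mul]
    have h7 : (1 / 2 : ℝ) ^ (n + 1) ≤ ∏ j ∈ Finset.range (L (n + 1)),
        (if Sp j then (1 / 2 : ℝ) else 1) := by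
      rw [Finset.prod_ite, Finset.prod_const, Finset.prod_const_one, mul_one]
      refine pow_le_pow_of_le_one (by norm_num) (by norm_num) ?_
      have h8 : (Finset.range (L (n + 1))).filter (fun j => Sp j) ⊆
          (Finset.range (n + 1)).image L := by
        intro j hj
        obtain ⟨h9, k, rfl⟩ := Finset.mem_filter.1 hj
        rw [Finset.mem_range, L_strictMono.lt_iff_lt] at h9
        exact Finset.mem_image.2 ⟨k, Finset.mem_range.2 h9, rfl⟩
      exact (Finset.card_le_card h8).trans (Finset.card_image_le.trans (by simp))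
    rw [h4]
    unfold q
    rw [pow_add]
    exact mul_le_mul_of_nonneg_left h7 (by positivity)
  · split_ifs <;> positivity

/-- the chain gives individuals of all generations which are born early -/
theorem chain {x : Times} (k n : ℕ) (u : List ℕ) (h0 : ∀ a, 0 < x a) (hx : x ∈ G L c k n u) :
    ∃ v : List ℕ, v.length = u.length + k ∧ birth x v ≤ birth x u + 2 * (1 / 2) ^ n := by
  induction k generalizing n u with
  | zero => exact ⟨u, rfl, by have : (0 : ℝ) ≤ 2 * (1 / 2) ^ n := by positivity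
                              linarith⟩
  | succ k ih =>
    obtain ⟨hA, hi⟩ := hx
    rw [mem_iUnion₂] at hi
    obtain ⟨i, hiL, hi⟩ := hi
    obtain ⟨v, hv1, hv2⟩ := ih (n + 1) (i :: u) hi
    refine ⟨v, by rw [hv1, List.length_cons]; omega, hv2.trans ?_⟩
    have h1 : ∑ j ∈ Finset.range (i + 1), x (u, j) ≤ ∑ j ∈ Finset.range (L (n + 1)), x (u, j) :=
      Finset.sum_le_sum_of_subset_of_nonneg
        (Finset.range_mono (Nat.succ_le_of_lt (Finset.mem_range.1 hiL))) (fun _ _ _ => (h0 _).le)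
    have h2 : ∑ j ∈ Finset.range (L (n + 1)), x (u, j) ≤
        ∑ j ∈ Finset.range (L (n + 1)), c n j := Finset.sum_le_sum fun j hj => hA j hj
    have h3 := sum_c n (L (n + 1))
    change birth x u + ∑ j ∈ Finset.range (i + 1), x (u, j) + 2 * (1 / 2) ^ (n + 1) ≤ _
    have h4 : (2 : ℝ) * (1 / 2) ^ (n + 1) = (1 / 2) ^ n := by rw [pow_succ]; ring
    linarith

/-- almost surely all the waiting times are positive -/
theorem ae_pos : ∀ᵐ x ∂(cmjLaw nu), ∀ a, 0 < x a := by
  rw [ae_all_iff]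
  intro a
  have h1 : (cmjLaw nu).map (fun x => x a) = nu a.2 := Measure.infinitePi_map_eval _ a
  have h2 := nu_pos a.2
  rw [← h1] at h2
  exact ae_of_ae_map (measurable_pi_apply a).aemeasurable h2

/-- almost surely `x (u, L n) = 1` for infinitely many `n` -/
theorem ae_one (u : List ℕ) : ∀ᵐ x ∂(cmjLaw nu), ∀ N, ∃ n, N ≤ n ∧ x (u, L n) = 1 := by
  rw [ae_all_iff]
  intro N
  rw [ae_iff]
  have hset : ∀ m, {x : Times | ¬ ∃ n, N ≤ n ∧ x (u, L n) = 1} ⊆
      Set.pi ((Finset.range m).map ⟨fun k => (u, L (N + k)), fun a b h => by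
        simp only [Prod.mk.injEq, true_and] at h
        have := L_strictMono.injective h
        omega⟩ : Finset (List ℕ × ℕ)) (fun _ => ({1} : Set ℝ)ᶜ) := by
    intro m x hx a ha
    simp only [Finset.coe_map, Function.Embedding.coeFn_mk, Finset.coe_range, mem_image,
      mem_Iio] at ha
    obtain ⟨k, -, rfl⟩ := ha
    intro h
    exact hx ⟨N + k, by omega, h⟩
  have h1 : ∀ m, (cmjLaw nu).real {x : Times | ¬ ∃ n, N ≤ n ∧ x (u, L n) = 1} ≤ (1 / 2) ^ m := by
    intro m
    refine (measureReal_mono (hset m)).trans ?_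
    unfold Measure.real cmjLaw
    rw [Measure.infinitePi_pi _ (fun _ _ => (measurableSet_singleton _).compl), Finset.prod_map,
      ENNReal.toReal_prod]
    calc _ ≤ ∏ k ∈ Finset.range m, (1 / 2 : ℝ) := by
          refine Finset.prod_le_prod (fun _ _ => ENNReal.toReal_nonneg) fun k _ => ?_
          change (nu (L (N + k))).real {1}ᶜ ≤ 1 / 2
          rw [probReal_compl_eq_one_sub (measurableSet_singleton _)]
          linarith [nu_one (N + k)]
      _ = (1 / 2) ^ m := by rw [Finset.prod_const, Finset.card_range]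
  have h2 : (cmjLaw nu).real {x : Times | ¬ ∃ n, N ≤ n ∧ x (u, L n) = 1} ≤ 0 := by
    have h5 : Tendsto (fun m : ℕ => (1 / 2 : ℝ) ^ m) atTop (𝓝 0) :=
      tendsto_pow_atTop_nhds_zero_of_lt_one (by norm_num) (by norm_num)
    exact ge_of_tendsto' h5 h1
  exact (measureReal_eq_zero_iff).1 (le_antisymm h2 measureReal_nonneg)

theorem unbounded {x : Times} (h0 : ∀ a, 0 < x a) (u : List ℕ)
    (h1 : ∀ N, ∃ n, N ≤ n ∧ x (u, L n) = 1) (C : ℝ) :
    ∃ m, C < ∑ j ∈ Finset.range m, x (u, j) := by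
  have h2 : ¬ Summable fun j => x (u, j) := by
    intro hs
    have h3 := hs.tendsto_atTop_zero
    have h4 : ∀ᶠ j in atTop, x (u, j) < 1 := h3.eventually_lt_const one_pos
    obtain ⟨J, hJ⟩ := eventually_atTop.1 h4
    obtain ⟨n, hn, hn1⟩ := h1 J
    have h5 := hJ (L n) (hn.trans (L_strictMono.id_le n))
    linarith
  rw [not_summable_iff_tendsto_nat_atTop_of_nonneg fun j => (h0 _).le] at h2
  exact ((tendsto_atTop.1 h2 (C + 1)).exists).imp fun m hm => by linarith

/-- the properties of the example -/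
theorem example_ae : ∀ᵐ x ∂(cmjLaw nu), (treeAtExplosion x).Infinite ∧ explosionTime x < ⊤ ∧
    ∀ u, {i | i :: u ∈ treeAtExplosion x}.Finite := by
  have h1 : ∀ᵐ x ∂(cmjLaw nu), ∀ u, ∀ N, ∃ n, N ≤ n ∧ x (u, L n) = 1 := ae_all_iff.2 ae_one
  have h2 := ae_exists nu L c q q_nonneg q_le_one real_A_ge q_mul_L (by unfold q; positivity)
  filter_upwards [ae_pos, h1, h2] with x h0 h1 h2
  have h3 : ∀ u, ∀ C : ℝ, ∃ m, C < ∑ j ∈ Finset.range m, x (u, j) := fun u C =>
    unbounded h0 u (h1 u) C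
  have h4 : ∃ t, (bornBy x t).Infinite := by
    obtain ⟨i, hi⟩ := h2
    refine ⟨birth x [i] + 2 * (1 / 2) ^ 0, fun hfin => ?_⟩
    have h5 : ∀ k, ∃ v ∈ bornBy x (birth x [i] + 2 * (1 / 2) ^ 0), v.length = 1 + k := by
      intro k
      obtain ⟨v, hv1, hv2⟩ := chain k 0 [i] h0 (mem_iInter.1 hi k)
      exact ⟨v, hv2, by simpa using hv1⟩
    have h6 := hfin.image List.length
    refine (Set.infinite_of_forall_exists_gt fun k => ?_) h6
    obtain ⟨v, hv1, hv2⟩ := h5 k
    exact ⟨v.length, ⟨v, hv1, rfl⟩, by omega⟩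
  exact ⟨tree_infinite h0 h3 h4, explosionTime_lt_top h0 h4, fun u => degrees h0 h3 h4 u⟩

end

end Pool.Agent.V1138.CM
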