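import Pool.Agent.V1138.CM.EllC

/-!
# The main theorem for elliptic curves with complex multiplication
-/

set_option autoImplicit false
set_option linter.unusedSectionVars false

open Matrix hiding row row_apply
open scoped PeriodPair

namespace Pool.Agent.V1138.CM

open Pool.Agent.TH127.PT Pool.Agent.W245.EB H667R3 Pool.Agent.V1138.OM Pool.Agent.Y123.ST

variable {L : PeriodPair} {m l : ℕ} {K : Subfield ℂ}

/-- restriction of derivations -/
noncomputable def resD (hK : K ≤ QB) (D : Derivation QB ℂ ℂ) : Derivation K ℂ ℂ where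
  toFun := D
  map_add' := D.map_add
  map_smul' := fun c x => by
    show D ((c : ℂ) * x) = (c : ℂ) * D x
    rw [D.leibniz, der_mem D (hK c.2), smul_zero, add_zero, smul_eq_mul]
  map_one_eq_zero' := D.map_one_eq_zero
  leibniz' := D.leibniz

theorem exists_der {z : ℂ} (hz : z ∉ QB) : ∃ D : Derivation QB ℂ ℂ, D z ≠ 0 := by
  by_contra hcon
  push Not at hcon
  exact hz (QB_der hcon)

variable {A : Matrix (Fin 2) (Fin 2) ℤ} {α ρ r τ τ' : ℂ}

theorem R_apply (h : CMd L A α ρ r τ τ') (v : Fin 2 → ℂ) :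
    ((PP (-r) * pm L) *ᵥ v) 0 = L.ω₁ * (v 0 + τ * v 1) ∧
    ((PP (-r) * pm L) *ᵥ v) 1 = (eta L L.ω₁ - r * L.ω₁) * (v 0 + τ' * v 1) := by
  rw [h.fac, ← Matrix.mulVec_mulVec, Matrix.mulVec_diagonal, Matrix.mulVec_diagonal]
  constructor
  · simp [Matrix.mulVec, dotProduct, Fin.sum_univ_two]
  · simp [Matrix.mulVec, dotProduct, Fin.sum_univ_two]

theorem det_notMem (L : PeriodPair) : (pm L).det ∉ QB := by
  obtain ⟨n, hn, hleg⟩ := legendre L
  have hn' : ((n : ℤ) : ℂ) ≠ 0 := by exact_mod_cast hn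
  have hnQ : ((n : ℤ) : ℂ) ∈ QB := by exact_mod_cast intCast_mem QB n
  have hdet : (pm L).det = n * (2 * Real.pi * Complex.I) := by rw [det_pm, hleg]
  intro h0
  apply transc_pi
  have h4 : (2 * Real.pi * Complex.I : ℂ) = (pm L).det * ((n : ℤ) : ℂ)⁻¹ := by
    rw [hdet]
    field_simp
  rw [h4]
  exact mem_QB.1 (QB.mul_mem h0 (QB.inv_mem hnQ))

theorem a0_ne (h2 : IsAlgebraic ℚ L.g₂) (h3 : IsAlgebraic ℚ L.g₃) : L.ω₁ ∉ QB := by
  have := per_ne h2 h3 QB.zero_mem QB.one_mem (Or.inr one_ne_zero)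
  simpa using this

theorem a1_ne (h2 : IsAlgebraic ℚ L.g₂) (h3 : IsAlgebraic ℚ L.g₃) (hr : r ∈ QB) :
    eta L L.ω₁ - r * L.ω₁ ∉ QB := by
  have := per_ne h2 h3 QB.one_mem (QB.neg_mem hr) (Or.inl one_ne_zero)
  rwa [one_mul, neg_mul, ← sub_eq_add_neg] at this

theorem a01_ne (h2 : IsAlgebraic ℚ L.g₂) (h3 : IsAlgebraic ℚ L.g₃) (hr : r ∈ QB) {z : ℂ} (hz : z ∈ QB) :
    L.ω₁ ≠ z * (eta L L.ω₁ - r * L.ω₁) := by
  intro h0
  have := per_ne h2 h3 (s := -z) (ρ := 1 + z * r) (QB.neg_mem hz) (QB.add_mem QB.one_mem (QB.mul_mem hz hr)) (by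
    by_cases h1 : z = 0
    · right
      rw [h1]
      simp
    · left
      exact neg_ne_zero.2 h1)
  apply this
  have h1 : -z * eta L L.ω₁ + (1 + z * r) * L.ω₁ = 0 := by linear_combination h0
  rw [h1]
  exact QB.zero_mem

theorem notMem_mul {x n : ℂ} (hx : x ∉ QB) (hn : n ∈ QB) (h : x * n ∈ QB) : x * n = 0 := by
  by_contra hne
  have hn0 := right_ne_zero_of_mul hne
  apply hx
  have h1 : x = x * n * n⁻¹ := by rw [mul_assoc, mul_inv_cancel₀ hn0, mul_one]
  rw [h1]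
  exact QB.mul_mem h (QB.inv_mem hn)

theorem by_one : by' (1 : Matrix (Idx m l) (Idx m l) ℂ) = 1 := by
  have := by_mk (m := m) (l := l) 1 0 0 0
  rwa [mk_one] at this

/-- an element of the group as a multiple of another one -/
theorem factor {x C : Matrix (Idx m l) (Idx m l) ℂ} (hx : x ∈ GG m l) (hC : C ∈ GG m l) {y : Matrix (Fin 2) (Fin 2) ℂ}
    (h : by' x = y * by' C) : ∃ V W t, W - Wᵀ = Vᵀ * JJ * V ∧ x = mk y V W t * C := by
  have hu' := (Matrix.isUnit_iff_isUnit_det C).1 (isUnit_of hC)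
  obtain ⟨y', V, W, t, -, hW, e⟩ := GG_mul hx (GG_inv hC)
  refine ⟨V, W, t, hW, ?_⟩
  have h1 : by' (x * C⁻¹) = y := by
    rw [(blocks_mul hx (GG_inv hC)).1, h, Matrix.mul_assoc, (by_inv hC).1, Matrix.mul_one]
  rw [e, by_mk] at h1
  rw [← h1, ← e, Matrix.mul_assoc, Matrix.nonsing_inv_mul C hu', Matrix.mul_one]

section

variable (h2 : IsAlgebraic ℚ L.g₂) (h3 : IsAlgebraic ℚ L.g₃) (hd : CMd L A α ρ r τ τ') (u : Fin m → ℂ)
    (hu : ∀ i, u i ∈ EL L)
    (hind : ∀ β : Fin m → ℂ, (∀ i, ∀ w ∈ L.lattice, β i * w ∈ L.lattice) → ∑ i, β i * u i ∈ L.lattice → β = 0)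
    (ℓ : Fin l → ℂ) (hℓ : ∀ j, IsAlgebraic ℚ (Complex.exp (ℓ j)))
    (hℓind : ∀ n : Fin l → ℤ, Complex.exp (∑ j, (n j : ℂ) * ℓ j) = 1 → n = 0) (W : Matrix (Fin m) (Fin m) ℂ)
    (hW : W - Wᵀ = (Matrix.of ![u, fun i => zt L (u i)])ᵀ * JJ * Matrix.of ![u, fun i => zt L (u i)])
include h2 h3 hd hu hind hℓ hℓind hW

theorem per_GG : per L u W ℓ ∈ GG m l :=
  ⟨_, _, _, _, by rw [det_pm]; exact leg_ne L, hW, rfl⟩

/-- the unipotent part -/
theorem uni_part {T : Set (Matrix (Idx m l) (Idx m l) ℂ)} (hT : IsSubtorsor QB T) (hC : per L u W ℓ ∈ T)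
    {V' : Matrix (Fin 2) (Fin m) ℂ} {W' : Matrix (Fin m) (Fin m) ℂ} {t' : Matrix Unit (Fin l) ℂ}
    (hW' : W' - W'ᵀ = V'ᵀ * JJ * V') : mk 1 V' W' t' * per L u W ℓ ∈ T := by
  have hby : by' (per L u W ℓ) = pm L := rfl
  refine uni_torsor (K := QB) (fun z => QB_der) hT hC (per_GG h2 h3 hd u hu hind ℓ hℓ hℓind W hW) hd.hα hd.hρ hd.hr
    hd.ne (A := A.map (Int.cast : ℤ → ℂ)) (fun i j => intCast_mem QB _) hd.rel ?_ ?_ (det_notMem L) ?_ ?_ hW'
  · intro a v hv h
    rw [hby] at h ⊢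
    obtain ⟨e0, e1⟩ := R_apply hd v
    fin_cases a
    · simp only [Fin.zero_eta] at h ⊢
      rw [e0] at h ⊢
      exact notMem_mul (a0_ne h2 h3) (QB.add_mem (hv 0) (QB.mul_mem hd.hτ (hv 1))) h
    · simp only [Fin.mk_one] at h ⊢
      rw [e1] at h ⊢
      exact notMem_mul (a1_ne h2 h3 hd.hr) (QB.add_mem (hv 0) (QB.mul_mem hd.hτ' (hv 1))) h
  · intro v v' z hv hv' hz h
    rw [hby] at h ⊢
    rw [(R_apply hd v).1] at h ⊢
    rw [(R_apply hd v').2] at h
    by_contra hne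
    have hn0 := right_ne_zero_of_mul hne
    have hnQ : v 0 + τ * v 1 ∈ QB := QB.add_mem (hv 0) (QB.mul_mem hd.hτ (hv 1))
    have hnQ' : v' 0 + τ' * v' 1 ∈ QB := QB.add_mem (hv' 0) (QB.mul_mem hd.hτ' (hv' 1))
    refine a01_ne h2 h3 hd.hr (z := z * (v' 0 + τ' * v' 1) * (v 0 + τ * v 1)⁻¹)
      (QB.mul_mem (QB.mul_mem hz hnQ') (QB.inv_mem hnQ)) ?_
    refine mul_right_cancel₀ hn0 ?_
    rw [h]
    field_simp
  · intro a v n b hv hn hb h
    have hby' : by' (per L u W ℓ) = pm L := rfl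
    rw [hby'] at h
    obtain ⟨e0, e1⟩ := R_apply hd n
    have eV : bV (per L u W ℓ) = Matrix.of ![u, fun i => zt L (u i)] := rfl
    rw [eV] at h
    fin_cases a
    · simp only [Fin.zero_eta] at h
      rw [e0] at h
      refine (pts h2 h3 u hu hind QB.zero_mem QB.one_mem (Or.inr one_ne_zero) v (n 0 + τ * n 1) b hv
        (QB.add_mem (hn 0) (QB.mul_mem hd.hτ (hn 1))) hb ?_).1
      rw [zero_mul, zero_add, one_mul, ← h]
      refine Finset.sum_congr rfl fun j _ => ?_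
      rw [zero_mul, zero_add, one_mul, Matrix.mul_apply, Fin.sum_univ_two]
      simp [PP]
    · simp only [Fin.mk_one] at h
      rw [e1] at h
      refine (pts h2 h3 u hu hind QB.one_mem (QB.neg_mem hd.hr) (Or.inl one_ne_zero) v (n 0 + τ' * n 1) b hv
        (QB.add_mem (hn 0) (QB.mul_mem hd.hτ' (hn 1))) hb ?_).1
      rw [one_mul, neg_mul, ← sub_eq_add_neg, ← h]
      refine Finset.sum_congr rfl fun j _ => ?_
      have e : (PP (-r) * Matrix.of ![u, fun i => zt L (u i)]) 1 j = 1 * zt L (u j) + -r * u j := by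
        rw [Matrix.mul_apply, Fin.sum_univ_two]
        simp [PP]
        ring
      rw [e]
  · intro v z b hv hz hb h0
    obtain ⟨n, hn, hleg⟩ := legendre L
    have hnQ : ((n : ℤ) : ℂ) ∈ QB := by exact_mod_cast intCast_mem QB n
    have hdet : (pm L).det = n * (2 * Real.pi * Complex.I) := by rw [det_pm, hleg]
    refine logs ℓ hℓ hℓind v (n * z) b hv (QB.mul_mem hnQ hz) hb ?_
    have h4 : ∑ j, ℓ j * v j = (pm L).det * z + b := h0
    rw [h4, hdet]
    ring

omit h2 h3 hu hind hℓ hℓind hW in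
/-- the derivative of the matrix of periods -/
theorem der_pm (D : Derivation QB ℂ ℂ) {p q : ℂ} (hp : D L.ω₁ = p * L.ω₁)
    (hq : D (eta L L.ω₁ - r * L.ω₁) = q * (eta L L.ω₁ - r * L.ω₁)) :
    (pm L).map D = PP r * diagonal ![p, q] * PP (-r) * pm L := by
  have h1 : pm L = PP r * (diagonal ![L.ω₁, eta L L.ω₁ - r * L.ω₁] * !![1, τ; 1, τ']) := by
    rw [← hd.fac, ← Matrix.mul_assoc, PP_mul, Matrix.one_mul]
  have h4 : (PP r).map D = 0 := der_zero D (PP_K hd.hr)
  have h5 : (!![1, τ; 1, τ'] : Matrix (Fin 2) (Fin 2) ℂ).map D = 0 := by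
    refine der_zero D fun i j => ?_
    fin_cases i <;> fin_cases j
    · exact QB.one_mem
    · exact hd.hτ
    · exact QB.one_mem
    · exact hd.hτ'
  have h6 : (diagonal ![L.ω₁, eta L L.ω₁ - r * L.ω₁]).map D =
      diagonal ![p, q] * diagonal ![L.ω₁, eta L L.ω₁ - r * L.ω₁] := by
    rw [Matrix.diagonal_mul_diagonal]
    ext i j
    rw [Matrix.map_apply]
    fin_cases i <;> fin_cases j
    · simpa using hp
    · simp
    · simp
    · simpa using hq
  have h7 : (pm L).map D = PP r * (diagonal ![p, q] * diagonal ![L.ω₁, eta L L.ω₁ - r * L.ω₁] * !![1, τ; 1, τ']) := by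
    conv_lhs => rw [h1]
    rw [der_mul, der_mul, h4, h5, h6, Matrix.zero_mul, zero_add, Matrix.mul_zero, add_zero]
  rw [h7, Matrix.mul_assoc (diagonal ![p, q]), ← hd.fac]
  simp only [Matrix.mul_assoc]

/-- **Main theorem.** -/
theorem mainC {K : Subfield ℂ} (hK : ∀ x ∈ K, IsAlgebraic ℚ x) {T : Set (Matrix (Idx m l) (Idx m l) ℂ)}
    (hT : SubT K T) (hC : per L u W ℓ ∈ T) {g : Matrix (Fin 2) (Fin 2) ℂ} (hg : g.det ≠ 0)
    (hgA : g * A.map (Int.cast : ℤ → ℂ) = A.map (Int.cast : ℤ → ℂ) * g) (hαK : α ∉ K ∨ g = 1)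
    {V' : Matrix (Fin 2) (Fin m) ℂ} {W' : Matrix (Fin m) (Fin m) ℂ} {t' : Matrix Unit (Fin l) ℂ}
    (hW' : W' - W'ᵀ = V'ᵀ * JJ * V') : mk (pm L * g) V' W' t' ∈ T := by
  have hKQ : K ≤ QB := fun x hx => mem_QB.2 (hK x hx)
  have hCG := per_GG h2 h3 hd u hu hind ℓ hℓ hℓind W hW
  have hdet0 : (pm L).det ≠ 0 := by
    rw [det_pm]
    exact leg_ne L
  have hpu := isUnit_iff_ne_zero.2 hdet0
  have hxG : mk (pm L * g) V' W' t' ∈ GG m l :=
    ⟨_, _, _, _, by rw [det_mul]; exact mul_ne_zero hdet0 hg, hW', rfl⟩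
  have hU : ∀ (V : Matrix (Fin 2) (Fin m) ℂ) (W₁ : Matrix (Fin m) (Fin m) ℂ) (t : Matrix Unit (Fin l) ℂ),
      W₁ - W₁ᵀ = Vᵀ * JJ * V → mk 1 V W₁ t * per L u W ℓ ∈ T ∩ GG m l := by
    intro V W₁ t hW₁
    exact ⟨uni_part h2 h3 hd u hu hind ℓ hℓ hℓind W hW (extend hKQ (subT_iff.1 hT)) hC hW₁,
      GG_mul ⟨_, _, _, _, by simp, hW₁, rfl⟩ hCG⟩
  rcases hαK with hαK | rfl
  · have hT' := inter (subT_iff.1 hT) (GG_sub (m := m) (l := l) K)
    have h0 := ω₁_ne_zero L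
    have ha1 : eta L L.ω₁ - r * L.ω₁ ≠ 0 := fun h => a1_ne h2 h3 hd.hr (h ▸ QB.zero_mem)
    have hlog : ∀ (D : Derivation QB ℂ ℂ) {z : ℂ}, z ≠ 0 → D z = D z / z * z := by
      intro D z hz
      rw [div_mul_cancel₀ _ hz]
    have d1 : ∃ (D : Derivation K ℂ ℂ) (p q : ℂ), (by' (per L u W ℓ)).map D =
        PP r * diagonal ![p, q] * PP (-r) * by' (per L u W ℓ) ∧ p + q ≠ 0 := by
      have hne : L.ω₁ * (eta L L.ω₁ - r * L.ω₁) ∉ QB := by
        intro h
        apply det_notMem L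
        have h4 := congrArg Matrix.det hd.fac
        rw [det_mul, PP_det, one_mul, det_mul, Matrix.det_diagonal, Fin.prod_univ_two, Matrix.det_fin_two_of] at h4
        rw [h4]
        refine QB.mul_mem h ?_
        rw [one_mul, mul_one]
        exact QB.sub_mem hd.hτ' hd.hτ
      obtain ⟨D, hD⟩ := exists_der hne
      refine ⟨resD hKQ D, _, _, der_pm hd D (hlog D h0) (hlog D ha1), ?_⟩
      intro h4
      apply hD
      rw [D.leibniz, smul_eq_mul, smul_eq_mul]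
      have h5 : L.ω₁ * D (eta L L.ω₁ - r * L.ω₁) + (eta L L.ω₁ - r * L.ω₁) * D L.ω₁ =
          (D L.ω₁ / L.ω₁ + D (eta L L.ω₁ - r * L.ω₁) / (eta L L.ω₁ - r * L.ω₁)) *
            (L.ω₁ * (eta L L.ω₁ - r * L.ω₁)) := by
        have gen : ∀ a b x y : ℂ, a ≠ 0 → b ≠ 0 → a * y + b * x = (x / a + y / b) * (a * b) := by
          intro a b x y ha hb
          field_simp
          ring
        exact gen _ _ _ _ h0 ha1
      rw [h5, h4, zero_mul]
    have d2 : ∃ (D : Derivation K ℂ ℂ) (p q : ℂ), (by' (per L u W ℓ)).map D =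
        PP r * diagonal ![p, q] * PP (-r) * by' (per L u W ℓ) ∧ p ≠ q := by
      have hne : L.ω₁ / (eta L L.ω₁ - r * L.ω₁) ∉ QB := by
        intro h
        refine a01_ne h2 h3 hd.hr h ?_
        rw [div_mul_cancel₀ _ ha1]
      obtain ⟨D, hD⟩ := exists_der hne
      refine ⟨resD hKQ D, _, _, der_pm hd D (hlog D h0) (hlog D ha1), ?_⟩
      intro h4
      apply hD
      rw [dlog D ha1 (hlog D h0) (hlog D ha1), h4, sub_self, zero_mul]
    -- the reductive part
    set B := PP r * diagonal ![α, ρ] * PP (-r) with hB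
    have hrel : pm L * A.map (Int.cast : ℤ → ℂ) = B * pm L := hd.rel
    set X := pm L * g * (pm L)⁻¹ with hX
    have hXB : X * B = B * X := by
      have e1 : B = pm L * A.map (Int.cast : ℤ → ℂ) * (pm L)⁻¹ := by
        rw [hrel, Matrix.mul_assoc, Matrix.mul_nonsing_inv _ hpu, Matrix.mul_one]
      rw [e1, hX]
      calc pm L * g * (pm L)⁻¹ * (pm L * A.map (Int.cast : ℤ → ℂ) * (pm L)⁻¹) =
          pm L * g * ((pm L)⁻¹ * pm L) * A.map (Int.cast : ℤ → ℂ) * (pm L)⁻¹ := by simp only [Matrix.mul_assoc]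
        _ = pm L * (g * A.map (Int.cast : ℤ → ℂ)) * (pm L)⁻¹ := by
            rw [Matrix.nonsing_inv_mul _ hpu, Matrix.mul_one]
            simp only [Matrix.mul_assoc]
        _ = pm L * A.map (Int.cast : ℤ → ℂ) * ((pm L)⁻¹ * pm L) * g * (pm L)⁻¹ := by
            rw [hgA, Matrix.nonsing_inv_mul _ hpu, Matrix.mul_one]
            simp only [Matrix.mul_assoc]
        _ = _ := by simp only [Matrix.mul_assoc]
    set Z := PP (-r) * X * PP r with hZ
    have hXZ : X = PP r * Z * PP (-r) := by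
      rw [hZ]
      calc X = (PP r * PP (-r)) * X * (PP r * PP (-r)) := by rw [PP_mul, Matrix.one_mul, Matrix.mul_one]
        _ = _ := by simp only [Matrix.mul_assoc]
    have hZD : Z * diagonal ![α, ρ] = diagonal ![α, ρ] * Z := by
      have e1 : diagonal ![α, ρ] = PP (-r) * B * PP r := by
        rw [hB]
        calc diagonal ![α, ρ] = (PP (-r) * PP r) * diagonal ![α, ρ] * (PP (-r) * PP r) := by
              rw [PP_mul', Matrix.one_mul, Matrix.mul_one]
          _ = _ := by simp only [Matrix.mul_assoc]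
      have e2 : Z * diagonal ![α, ρ] = PP (-r) * (X * B) * PP r := by
        rw [e1, hZ]
        calc PP (-r) * X * PP r * (PP (-r) * B * PP r) = PP (-r) * X * (PP r * PP (-r)) * B * PP r := by
              simp only [Matrix.mul_assoc]
          _ = _ := by rw [PP_mul, Matrix.mul_one]; simp only [Matrix.mul_assoc]
      have e3 : diagonal ![α, ρ] * Z = PP (-r) * (B * X) * PP r := by
        rw [e1, hZ]
        calc PP (-r) * B * PP r * (PP (-r) * X * PP r) = PP (-r) * B * (PP r * PP (-r)) * X * PP r := by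
              simp only [Matrix.mul_assoc]
          _ = _ := by rw [PP_mul, Matrix.mul_one]; simp only [Matrix.mul_assoc]
      rw [e2, e3, hXB]
    have z01 : Z 0 1 = 0 := by
      have h1 := congrFun (congrFun hZD 0) 1
      simp only [Matrix.mul_diagonal, Matrix.diagonal_mul, Matrix.cons_val_zero, Matrix.cons_val_one] at h1
      have h4 : (α - ρ) * Z 0 1 = 0 := by linear_combination -h1
      exact (mul_eq_zero.1 h4).resolve_left (sub_ne_zero.2 hd.ne)
    have z10 : Z 1 0 = 0 := by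
      have h1 := congrFun (congrFun hZD 1) 0
      simp only [Matrix.mul_diagonal, Matrix.diagonal_mul, Matrix.cons_val_zero, Matrix.cons_val_one] at h1
      have h4 : (α - ρ) * Z 1 0 = 0 := by linear_combination h1
      exact (mul_eq_zero.1 h4).resolve_left (sub_ne_zero.2 hd.ne)
    have hZdiag : Z = diagonal ![Z 0 0, Z 1 1] := by
      ext i j
      fin_cases i <;> fin_cases j
      · simp
      · simpa using z01
      · simpa using z10
      · simp
    have hZdet : Z.det ≠ 0 := by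
      rw [hZ, det_mul, det_mul, PP_det, PP_det, one_mul, mul_one, hX, det_mul, det_mul, det_nonsing_inv,
        Ring.inverse_eq_inv', mul_comm (pm L).det, mul_assoc, mul_inv_cancel₀ hdet0, mul_one]
      exact hg
    have hs : Z 0 0 ≠ 0 ∧ Z 1 1 ≠ 0 := by
      rw [Matrix.det_fin_two, z01, zero_mul, sub_zero] at hZdet
      exact ⟨left_ne_zero_of_mul hZdet, right_ne_zero_of_mul hZdet⟩
    obtain ⟨V₂, W₂, t₂, hW₂, hx⟩ := factor hxG hCG (y := X) (by
      show pm L * g = X * pm L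
      rw [hX, Matrix.mul_assoc, Matrix.nonsing_inv_mul _ hpu, Matrix.mul_one])
    rw [hx, hXZ, hZdiag]
    exact (torus_torsor hT' Set.inter_subset_right ⟨hC, hCG⟩ hd.ne hαK hd.tr hrel d1 d2 hU hs.1 hs.2 hW₂).1
  · obtain ⟨V₂, W₂, t₂, hW₂, hx⟩ := factor hxG hCG (y := 1) (by
      show pm L * 1 = 1 * pm L
      rw [Matrix.mul_one, Matrix.one_mul])
    rw [hx]
    exact (hU _ _ _ hW₂).1

end

end Pool.Agent.V1138.CM
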