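import Pool.Agent.V1138.CM.Det

/-!
# Explosion along a path, for independent waiting times: the probabilistic part
-/

open Filter Topology Set MeasureTheory ProbabilityTheory

namespace Pool.Agent.V1138.CM

noncomputable section

/-- The law of the waiting times: all `x (u, j)` are independent, `x (u, j)` has the law `ν j`. -/
def cmjLaw (ν : ℕ → Measure ℝ) : Measure Times := Measure.infinitePi fun a => ν a.2

variable (ν : ℕ → Measure ℝ) [hν : ∀ j, IsProbabilityMeasure (ν j)]

instance : IsProbabilityMeasure (cmjLaw ν) := by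
  unfold cmjLaw; infer_instance

/-- the sigma-algebra of some coordinates -/
@[instance_reducible] def sg (S : Set (List ℕ × ℕ)) : MeasurableSpace Times :=
  ⨆ a ∈ S, MeasurableSpace.comap (fun x : Times => x a) (borel ℝ)

theorem comap_le (a : List ℕ × ℕ) :
    MeasurableSpace.comap (fun x : Times => x a) (borel ℝ) ≤ MeasurableSpace.pi := by
  rw [← BorelSpace.measurable_eq (α := ℝ)]
  exact (measurable_pi_apply a).comap_le

theorem sg_le (S : Set (List ℕ × ℕ)) : sg S ≤ MeasurableSpace.pi :=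
  iSup₂_le fun a _ => comap_le a

theorem sg_mono {S T : Set (List ℕ × ℕ)} (h : S ⊆ T) : sg S ≤ sg T :=
  iSup₂_le fun a ha => le_iSup₂_of_le a (h ha) le_rfl

theorem coord_indep : iIndepFun (fun (a : List ℕ × ℕ) (x : Times) => x a) (cmjLaw ν) :=
  iIndepFun_infinitePi (X := fun (_ : List ℕ × ℕ) (f : ℝ) => f) fun _ => measurable_id

theorem indep_sg {S T : Set (List ℕ × ℕ)} (h : Disjoint S T) :
    Indep (sg S) (sg T) (cmjLaw ν) := by
  have h1 := coord_indep ν
  rw [iIndepFun_iff_iIndep] at h1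
  have h2 : ∀ a : List ℕ × ℕ, MeasurableSpace.comap (fun x : Times => x a) (borel ℝ) ≤
      MeasurableSpace.pi := comap_le
  refine indep_iSup_of_disjoint h2 ?_ h
  rw [← BorelSpace.measurable_eq (α := ℝ)]
  exact h1

theorem real_inter {S T : Set (List ℕ × ℕ)} (h : Disjoint S T) {E F : Set Times}
    (hE : MeasurableSet[sg S] E) (hF : MeasurableSet[sg T] F) :
    (cmjLaw ν).real (E ∩ F) = (cmjLaw ν).real E * (cmjLaw ν).real F := by
  have h1 := (Indep_iff _ _ _).1 (indep_sg ν h) E F hE hF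
  unfold Measure.real
  rw [h1, ENNReal.toReal_mul]

theorem coord_meas {S : Set (List ℕ × ℕ)} {a : List ℕ × ℕ} (ha : a ∈ S) {B : Set ℝ}
    (hB : MeasurableSet B) : MeasurableSet[sg S] {x : Times | x a ∈ B} := by
  have h1 : MeasurableSpace.comap (fun x : Times => x a) (borel ℝ) ≤ sg S :=
    le_iSup₂_of_le a ha le_rfl
  apply h1
  refine ⟨B, ?_, rfl⟩
  rw [← BorelSpace.measurable_eq (α := ℝ)]
  exact hB

/-- the coordinates of the descendants of `u` -/
def Cs (u : List ℕ) : Set (List ℕ × ℕ) := {a | u <:+ a.1}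

theorem Cs_cons (i : ℕ) (u : List ℕ) : Cs (i :: u) ⊆ Cs u :=
  fun _ ha => (List.suffix_cons i u).trans ha

theorem Cs_disj {i j : ℕ} (hij : i ≠ j) (u : List ℕ) : Disjoint (Cs (i :: u)) (Cs (j :: u)) := by
  rw [Set.disjoint_left]
  intro a ha hb
  have h1 : (i :: u) <:+ a.1 := ha
  have h2 : (j :: u) <:+ a.1 := hb
  have h3 : (i :: u) <:+ (j :: u) := List.suffix_of_suffix_length_le h1 h2 (by simp)
  have h4 := h3.eq_of_length (by simp)
  simp only [List.cons.injEq, and_true] at h4
  exact hij h4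

theorem prod_compl (u : List ℕ) (E : ℕ → Set Times) (hE : ∀ i, MeasurableSet[sg (Cs (i :: u))] (E i))
    (m : ℕ) : (cmjLaw ν).real (⋂ i ∈ Finset.range m, (E i)ᶜ) =
      ∏ i ∈ Finset.range m, (1 - (cmjLaw ν).real (E i)) := by
  induction m with
  | zero => simp
  | succ m ih =>
    have h1 : (⋂ i ∈ Finset.range (m + 1), (E i)ᶜ) = (⋂ i ∈ Finset.range m, (E i)ᶜ) ∩ (E m)ᶜ := by
      ext x
      simp only [mem_iInter, Finset.mem_range, mem_inter_iff]
      constructor
      · exact fun h => ⟨fun i hi => h i (by omega), h m (by omega)⟩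
      · rintro ⟨h2, h3⟩ i hi
        rcases Nat.lt_succ_iff_lt_or_eq.1 hi with h | h
        · exact h2 i h
        · exact h ▸ h3
    have hS : MeasurableSet[sg (⋃ i ∈ Finset.range m, Cs (i :: u))]
        (⋂ i ∈ Finset.range m, (E i)ᶜ) := by
      refine Finset.measurableSet_biInter _ fun i hi => ?_
      refine MeasurableSet.compl ?_
      exact sg_mono (subset_biUnion_of_mem (u := fun i => Cs (i :: u)) hi) _ (hE i)
    have hd : Disjoint (⋃ i ∈ Finset.range m, Cs (i :: u)) (Cs (m :: u)) := by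
      rw [Set.disjoint_iUnion₂_left]
      intro i hi
      exact Cs_disj (Finset.mem_range.1 hi).ne u
    rw [h1, real_inter ν hd hS (MeasurableSet.compl (hE m)), ih, Finset.prod_range_succ,
      probReal_compl_eq_one_sub (sg_le _ _ (hE m))]

/-! ### The events -/

variable (L : ℕ → ℕ) (c : ℕ → ℕ → ℝ)

/-- the first `L (n + 1)` waiting times are small -/
def A (n : ℕ) (u : List ℕ) : Set Times := {x | ∀ j ∈ Finset.range (L (n + 1)), x (u, j) ≤ c n j}

/-- there is a chain of length `k` -/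
def G : ℕ → ℕ → List ℕ → Set Times
  | 0, n, u => A L c n u
  | k + 1, n, u => A L c n u ∩ ⋃ i ∈ Finset.range (L (n + 1)), G k (n + 1) (i :: u)

omit hν in
theorem A_meas (n : ℕ) (u : List ℕ) : MeasurableSet[sg {a | a.1 = u}] (A L c n u) := by
  have : A L c n u = ⋂ j ∈ Finset.range (L (n + 1)), {x : Times | x (u, j) ∈ Iic (c n j)} := by
    ext x; simp [A]
  rw [this]
  refine Finset.measurableSet_biInter _ fun j _ => ?_
  exact coord_meas (S := {a : List ℕ × ℕ | a.1 = u}) (a := (u, j)) rfl measurableSet_Iic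

omit hν in
theorem G_meas (k n : ℕ) (u : List ℕ) : MeasurableSet[sg (Cs u)] (G L c k n u) := by
  have hA : MeasurableSet[sg (Cs u)] (A L c n u) := by
    refine sg_mono ?_ _ (A_meas L c n u)
    intro a ha
    have : a.1 = u := ha
    change u <:+ a.1
    rw [this]
  induction k generalizing n u with
  | zero => exact hA
  | succ k ih =>
    refine MeasurableSet.inter hA ?_
    refine Finset.measurableSet_biUnion _ fun i _ => ?_
    refine sg_mono (Cs_cons i u) _ (ih (n + 1) (i :: u) ?_)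
    refine sg_mono ?_ _ (A_meas L c (n + 1) (i :: u))
    intro a ha
    have : a.1 = i :: u := ha
    change (i :: u) <:+ a.1
    rw [this]

omit hν in
theorem G_meas' (k n : ℕ) (u : List ℕ) : MeasurableSet (G L c k n u) :=
  sg_le _ _ (G_meas L c k n u)

omit hν in
theorem G_anti (n : ℕ) (u : List ℕ) : Antitone fun k => G L c k n u := by
  refine antitone_nat_of_succ_le fun k => ?_
  induction k generalizing n u with
  | zero => exact inter_subset_left
  | succ k ih =>
    refine inter_subset_inter_right _ ?_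
    exact iUnion₂_mono fun i _ => ih (n + 1) (i :: u)

theorem real_G_succ (k n : ℕ) (u : List ℕ) :
    (cmjLaw ν).real (G L c (k + 1) n u) = (cmjLaw ν).real (A L c n u) *
      (1 - ∏ i ∈ Finset.range (L (n + 1)), (1 - (cmjLaw ν).real (G L c k (n + 1) (i :: u)))) := by
  have hS : MeasurableSet[sg (⋃ i, Cs (i :: u))]
      (⋃ i ∈ Finset.range (L (n + 1)), G L c k (n + 1) (i :: u)) := by
    refine Finset.measurableSet_biUnion _ fun i _ => ?_
    exact sg_mono (subset_iUnion (fun i => Cs (i :: u)) i) _ (G_meas L c k (n + 1) (i :: u))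
  have hd : Disjoint {a : List ℕ × ℕ | a.1 = u} (⋃ i, Cs (i :: u)) := by
    rw [Set.disjoint_iUnion_right]
    intro i
    rw [Set.disjoint_left]
    intro a ha hb
    have h1 : a.1 = u := ha
    have h2 : (i :: u) <:+ a.1 := hb
    rw [h1] at h2
    have h3 := h2.length_le
    simp at h3
  change (cmjLaw ν).real (A L c n u ∩ _) = _
  rw [real_inter ν hd (A_meas L c n u) hS]
  congr 1
  have h4 := prod_compl ν u (fun i => G L c k (n + 1) (i :: u))
    (fun i => G_meas L c k (n + 1) (i :: u)) (L (n + 1))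
  have h5 : (⋂ i ∈ Finset.range (L (n + 1)), (G L c k (n + 1) (i :: u))ᶜ) =
      (⋃ i ∈ Finset.range (L (n + 1)), G L c k (n + 1) (i :: u))ᶜ := by
    rw [compl_iUnion₂]
  rw [h5, probReal_compl_eq_one_sub (sg_le _ _ hS)] at h4
  linarith

variable (q : ℕ → ℝ) (hq0 : ∀ n, 0 ≤ q n) (hq1 : ∀ n, q n ≤ 1)
  (hq : ∀ n u, q n ≤ (cmjLaw ν).real (A L c n u)) (hL : ∀ n, 2 ≤ q n * L n)

include hq0 hq1 hq hL

omit hν hq hq0 hq1 in
theorem small_prod (n : ℕ) (p : ℕ → ℝ) (hp : ∀ i, q n / 2 ≤ p i) (hp1 : ∀ i, p i ≤ 1) :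
    ∏ i ∈ Finset.range (L n), (1 - p i) ≤ 1 / 2 := by
  have h1 : ∏ i ∈ Finset.range (L n), (1 - p i) ≤ ∏ i ∈ Finset.range (L n), Real.exp (-(q n / 2)) := by
    refine Finset.prod_le_prod (fun i _ => by linarith [hp1 i]) fun i _ => ?_
    have := Real.add_one_le_exp (-(q n / 2))
    linarith [hp i]
  refine h1.trans ?_
  rw [Finset.prod_const, Finset.card_range, ← Real.exp_nat_mul]
  have h2 : (L n : ℝ) * -(q n / 2) ≤ -1 := by
    have := hL n
    nlinarith
  refine (Real.exp_le_exp.2 h2).trans ?_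
  rw [Real.exp_neg]
  have h3 : (2 : ℝ) ≤ Real.exp 1 := by
    have := Real.add_one_le_exp (1 : ℝ)
    linarith
  rw [one_div]
  exact inv_anti₀ (by norm_num) h3

theorem real_G_ge (k n : ℕ) (u : List ℕ) : q n / 2 ≤ (cmjLaw ν).real (G L c k n u) := by
  induction k generalizing n u with
  | zero =>
    have h1 := hq n u
    have h2 := hq0 n
    change q n / 2 ≤ (cmjLaw ν).real (A L c n u)
    linarith
  | succ k ih =>
    rw [real_G_succ]
    have h1 := small_prod L q hL (n + 1)
      (fun i => (cmjLaw ν).real (G L c k (n + 1) (i :: u))) (fun i => ih (n + 1) (i :: u))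
      (fun i => measureReal_le_one)
    have h2 := hq n u
    have h3 := hq0 n
    nlinarith

/-- the event of an infinite chain -/
def Dinf (L : ℕ → ℕ) (c : ℕ → ℕ → ℝ) (n : ℕ) (u : List ℕ) : Set Times := ⋂ k, G L c k n u

theorem real_D_ge (n : ℕ) (u : List ℕ) : q n / 2 ≤ (cmjLaw ν).real (Dinf L c n u) := by
  have h := tendsto_measure_iInter_atTop (μ := cmjLaw ν)
    (fun k => (G_meas' L c k n u).nullMeasurableSet) (G_anti L c n u)
    ⟨0, measure_ne_top _ _⟩
  have h2 := (ENNReal.tendsto_toReal (measure_ne_top (cmjLaw ν) (Dinf L c n u))).comp h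
  exact ge_of_tendsto' h2 fun k => real_G_ge ν L c q hq0 hq1 hq hL k n u

/-- almost surely one of the children of the root has an infinite chain -/
theorem ae_exists (h0 : 0 < q 0) : ∀ᵐ x ∂(cmjLaw ν), ∃ i, x ∈ Dinf L c 0 [i] := by
  have hD : ∀ i, MeasurableSet[sg (Cs [i])] (Dinf L c 0 [i]) := fun i =>
    MeasurableSet.iInter fun k => G_meas L c k 0 [i]
  have h1 : ∀ m, (cmjLaw ν).real (⋂ i, (Dinf L c 0 [i])ᶜ) ≤ (1 - q 0 / 2) ^ m := by
    intro m
    have h2 := prod_compl ν [] (fun i => Dinf L c 0 [i]) hD m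
    have h3 : (cmjLaw ν).real (⋂ i, (Dinf L c 0 [i])ᶜ) ≤
        (cmjLaw ν).real (⋂ i ∈ Finset.range m, (Dinf L c 0 [i])ᶜ) := by
      refine measureReal_mono ?_
      exact fun x hx => mem_iInter₂.2 fun i _ => mem_iInter.1 hx i
    refine h3.trans ?_
    rw [h2]
    calc ∏ i ∈ Finset.range m, (1 - (cmjLaw ν).real (Dinf L c 0 [i]))
        ≤ ∏ i ∈ Finset.range m, (1 - q 0 / 2) := by
          refine Finset.prod_le_prod (fun i _ => ?_) fun i _ => ?_
          · have := measureReal_le_one (μ := cmjLaw ν) (s := Dinf L c 0 [i])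
            linarith
          · have := real_D_ge ν L c q hq0 hq1 hq hL 0 [i]
            linarith
      _ = (1 - q 0 / 2) ^ m := by rw [Finset.prod_const, Finset.card_range]
  have h2 : (cmjLaw ν).real (⋂ i, (Dinf L c 0 [i])ᶜ) ≤ 0 := by
    have h5 : Tendsto (fun m : ℕ => (1 - q 0 / 2) ^ m) atTop (𝓝 0) :=
      tendsto_pow_atTop_nhds_zero_of_lt_one (by linarith [hq1 0]) (by linarith)
    exact ge_of_tendsto' h5 h1
  have h3 : (cmjLaw ν) (⋂ i, (Dinf L c 0 [i])ᶜ) = 0 := by
    have h4 : (cmjLaw ν).real (⋂ i, (Dinf L c 0 [i])ᶜ) = 0 := le_antisymm h2 measureReal_nonneg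
    exact (measureReal_eq_zero_iff).1 h4
  rw [ae_iff]
  convert h3 using 2
  ext x
  simp

end

end Pool.Agent.V1138.CM
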