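import Pool.Agent.V1138.CM.Uni

/-!
# One-parameter subgroups which generate a torus
-/

set_option autoImplicit false
set_option linter.unusedSectionVars false

open Matrix hiding row row_apply
open MvPolynomial

namespace Pool.Agent.V1138.CM

open Pool.Agent.TH127.PT Pool.Agent.TH119.MX Pool.Agent.TH119.DR Pool.Agent.Y123.ST Pool.Agent.V1138.OM

/-- eigenvectors with different eigenvalues -/
theorem eig_mem {V : Type*} [AddCommGroup V] [Module ℂ V] (θ : V →ₗ[ℂ] V) (p : Submodule ℂ V)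
    (hp : ∀ x ∈ p, θ x ∈ p) {ι : Type*} [DecidableEq ι] (μ : ι → ℂ) :
    ∀ (s : Finset ι) (v : ι → V), (∀ i ∈ s, θ (v i) = μ i • v i) → (∀ i ∈ s, ∀ j ∈ s, μ i = μ j → i = j) →
      ∑ i ∈ s, v i ∈ p → ∀ i ∈ s, v i ∈ p := by
  intro s
  induction s using Finset.induction_on with
  | empty => intro v _ _ _ i hi; simp at hi
  | insert a s ha ih =>
    intro v hv hμ hsum
    have h1 := hp _ hsum
    rw [Finset.sum_insert ha, map_add, map_sum, hv a (Finset.mem_insert_self a s)] at h1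
    have h2 := p.sub_mem h1 (p.smul_mem (μ a) hsum)
    rw [Finset.sum_insert ha, smul_add, add_sub_add_left_eq_sub, Finset.smul_sum, ← Finset.sum_sub_distrib] at h2
    have h3 : ∀ i ∈ s, θ (v i) - μ a • v i = (μ i - μ a) • v i := by
      intro i hi
      rw [hv i (Finset.mem_insert_of_mem hi), sub_smul]
    rw [Finset.sum_congr rfl h3] at h2
    have h5 : ∀ i ∈ s, v i ∈ p := by
      intro i hi
      have h6 := ih (fun i => (μ i - μ a) • v i) (fun j hj => by
        rw [map_smul, hv j (Finset.mem_insert_of_mem hj), smul_comm])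
        (fun j hj k hk => hμ j (Finset.mem_insert_of_mem hj) k (Finset.mem_insert_of_mem hk)) h2 i hi
      have h7 : μ i - μ a ≠ 0 := by
        intro h0
        have := hμ i (Finset.mem_insert_of_mem hi) a (Finset.mem_insert_self a s) (sub_eq_zero.1 h0)
        exact ha (this ▸ hi)
      have h8 := p.smul_mem (μ i - μ a)⁻¹ h6
      rwa [smul_smul, inv_mul_cancel₀ h7, one_smul] at h8
    intro i hi
    rcases Finset.mem_insert.1 hi with rfl | hi
    · rw [Finset.sum_insert ha] at hsum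
      have h6 := p.sub_mem hsum (p.sum_mem h5)
      rwa [add_sub_cancel_right] at h6
    · exact h5 i hi

variable {N : Type} [Fintype N] [DecidableEq N] {K : Subfield ℂ} {T : Set (Matrix N N ℂ)}

/-- the vector field of a diagonal matrix -/
noncomputable def Th (d : N → ℂ) : MvPolynomial (N × N) ℂ →ₗ[ℂ] MvPolynomial (N × N) ℂ :=
  ∑ b : N × N, (LinearMap.mulRight ℂ (X b * C (d b.1))).comp (pderiv b).toLinearMap

theorem Th_apply (d : N → ℂ) (P : MvPolynomial (N × N) ℂ) : Th d P = ∑ b : N × N, pderiv b P * (X b * C (d b.1)) := by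
  unfold Th
  rw [LinearMap.sum_apply]
  rfl

theorem Th_monomial (d : N → ℂ) (m : N × N →₀ ℕ) (a : ℂ) :
    Th d (monomial m a) = (∑ b : N × N, (m b : ℂ) * d b.1) • monomial m a := by
  rw [Th_apply, Finset.sum_smul]
  refine Finset.sum_congr rfl fun b _ => ?_
  rw [← mul_assoc, mul_comm (pderiv b (monomial m a)) (X b), X_mul_pderiv_monomial, smul_mul_assoc, mul_comm, ← smul_eq_C_mul,
    mul_smul, Nat.cast_smul_eq_nsmul]

theorem Th_van {d : N → ℂ} (hd : fl (diagonal d) ∈ LL T) {P : MvPolynomial (N × N) ℂ} (hP : Van T P) :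
    Van T (Th d P) := by
  intro x hx
  have h1 := hd P hP x hx
  rw [Th_apply, map_sum]
  rw [um_fl] at h1
  rw [← h1]
  unfold dd
  refine Finset.sum_congr rfl fun b _ => ?_
  rw [map_mul, map_mul, eval_X, eval_C]
  congr 1
  unfold fl
  rw [Matrix.diagonal_mul, mul_comm]

/-- **Tori.** If a diagonal matrix is in the Lie algebra, so are the matrices in the closure of its one-parameter
subgroup in the group. -/
theorem torus (hT : IsSubtorsor K T) {d g : N → ℂ} (hg : ∀ i, g i ≠ 0) (hd : fl (diagonal d) ∈ LL T)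
    (h : ∀ m m' : N × N →₀ ℕ, ∑ b : N × N, (m b : ℂ) * d b.1 = ∑ b : N × N, (m' b : ℂ) * d b.1 →
      ∏ b : N × N, g b.1 ^ m b = ∏ b : N × N, g b.1 ^ m' b) {x : Matrix N N ℂ} (hx : x ∈ T) : diagonal g * x ∈ T := by
  classical
  have hxT := hx
  have hT' := hT
  obtain ⟨I, h1, h2⟩ := hT.algebraic
  have hIV : ∀ p ∈ I, Van T p := fun p hp y hy => ((h2 y).1 hy).2 p hp
  have hgu : IsUnit (diagonal g) := by
    rw [Matrix.isUnit_diagonal, Pi.isUnit_iff]
    exact fun i => isUnit_iff_ne_zero.2 (hg i)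
  rw [h2]
  refine ⟨hgu.mul (hT'.isUnit x hxT), fun P hP => ?_⟩
  change eval (fl (diagonal g * x)) P = 0
  -- the weights
  let lam : (N × N →₀ ℕ) → ℂ := fun m => ∑ b : N × N, (m b : ℂ) * d b.1
  let S : Finset ℂ := P.support.image lam
  let v : ℂ → MvPolynomial (N × N) ℂ := fun μ => ∑ m ∈ P.support with lam m = μ, monomial m (P.coeff m)
  let V : Submodule ℂ (MvPolynomial (N × N) ℂ) :=
    { carrier := {Q | Van T Q}
      zero_mem' := fun x _ => map_zero _
      add_mem' := fun {Q Q'} hQ hQ' x hx => by rw [map_add, hQ x hx, hQ' x hx, add_zero]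
      smul_mem' := fun a Q hQ x hx => by rw [smul_eval, hQ x hx, mul_zero] }
  have hsum : ∑ μ ∈ S, v μ = P := by
    have h3 : ∑ μ ∈ S, v μ = ∑ m ∈ P.support, monomial m (P.coeff m) :=
      Finset.sum_fiberwise_of_maps_to (fun m hm => Finset.mem_image_of_mem lam hm) _
    rw [h3]
    exact (as_sum P).symm
  have hv : ∀ μ ∈ S, v μ ∈ V := by
    refine eig_mem (Th d) V (fun Q hQ => Th_van hd hQ) (fun μ => μ) S v ?_ (fun _ _ _ _ h => h) ?_
    · intro μ _
      simp only [v]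
      rw [map_sum, Finset.smul_sum]
      refine Finset.sum_congr rfl fun m hm => ?_
      rw [Th_monomial, ← (Finset.mem_filter.1 hm).2]
    · rw [hsum]
      exact hIV P hP
  rw [← hsum, map_sum]
  refine Finset.sum_eq_zero fun μ hμ => ?_
  obtain ⟨m₀, hm₀, rfl⟩ := Finset.mem_image.1 hμ
  have h4 : eval (fl (diagonal g * x)) (v (lam m₀)) = (∏ b : N × N, g b.1 ^ m₀ b) * eval (fl x) (v (lam m₀)) := by
    simp only [v]
    rw [map_sum, map_sum, Finset.mul_sum]
    refine Finset.sum_congr rfl fun m hm => ?_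
    rw [h m₀ m (Finset.mem_filter.1 hm).2.symm, eval_monomial, eval_monomial, Finsupp.prod_fintype, Finsupp.prod_fintype,
      mul_left_comm, ← Finset.prod_mul_distrib]
    · congr 1
      refine Finset.prod_congr rfl fun b _ => ?_
      rw [← mul_pow]
      congr 1
      unfold fl
      rw [Matrix.diagonal_mul]
    · intro b
      exact pow_zero _
    · intro b
      exact pow_zero _
  rw [h4, hv _ hμ x hx, mul_zero]

section

variable {m l : ℕ}

/-- the first weight -/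
def w1 : Idx m l → ℕ
  | Sum.inl (Sum.inl _) => 1
  | Sum.inl (Sum.inr (Sum.inl a)) => if a = 0 then 1 else 0
  | Sum.inl (Sum.inr (Sum.inr _)) => 0
  | Sum.inr (Sum.inl _) => 1
  | Sum.inr (Sum.inr _) => 0

/-- the second weight -/
def w2 : Idx m l → ℕ
  | Sum.inl (Sum.inl _) => 1
  | Sum.inl (Sum.inr (Sum.inl a)) => if a = 0 then 0 else 1
  | Sum.inl (Sum.inr (Sum.inr _)) => 0
  | Sum.inr (Sum.inl _) => 1
  | Sum.inr (Sum.inr _) => 0

theorem mk_diag (s₁ s₂ : ℂ) : mk (m := m) (l := l) (diagonal ![s₁, s₂]) 0 0 0 =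
    diagonal fun i => s₁ ^ w1 i * s₂ ^ w2 i := by
  have hdet : (diagonal ![s₁, s₂]).det = s₁ * s₂ := by
    rw [Matrix.det_diagonal, Fin.prod_univ_two]
    rfl
  unfold mk
  rw [hdet, transpose_zero, Matrix.zero_mul, Matrix.zero_mul]
  ext i j
  rcases i with (i | i | i) | (i | i) <;> rcases j with (j | j | j) | (j | j) <;>
    simp [Matrix.diagonal_apply, w1, w2, Matrix.one_apply]
  fin_cases i <;> fin_cases j <;> simp

theorem lie_diag (p q : ℂ) : lie (m := m) (l := l) (diagonal ![p, q]) 0 0 0 =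
    diagonal fun i => (w1 i : ℂ) * p + (w2 i : ℂ) * q := by
  have htr : (diagonal ![p, q]).trace = p + q := by
    rw [Matrix.trace_diagonal, Fin.sum_univ_two]
    rfl
  unfold lie
  rw [htr, transpose_zero, Matrix.zero_mul]
  ext i j
  rcases i with (i | i | i) | (i | i) <;> rcases j with (j | j | j) | (j | j) <;>
    simp [Matrix.diagonal_apply, w1, w2, Matrix.one_apply]
  fin_cases i <;> fin_cases j <;> simp

theorem torus_mem {H : Set (Matrix (Idx m l) (Idx m l) ℂ)} (hH : IsSubtorsor K H) {p q : ℂ}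
    (hpq : ∀ j k : ℤ, (j : ℂ) * p + k * q = 0 → j = 0 ∧ k = 0) (h : lie (diagonal ![p, q]) 0 0 0 ∈ LA H)
    {s₁ s₂ : ℂ} (h₁ : s₁ ≠ 0) (h₂ : s₂ ≠ 0) {x : Matrix (Idx m l) (Idx m l) ℂ} (hx : x ∈ H) :
    mk (diagonal ![s₁, s₂]) 0 0 0 * x ∈ H := by
  rw [mk_diag]
  rw [lie_diag] at h
  refine torus hH (fun i => mul_ne_zero (pow_ne_zero _ h₁) (pow_ne_zero _ h₂)) h ?_ hx
  intro n n' h0
  have e1 : ∀ n : Idx m l × Idx m l →₀ ℕ, ∑ b : Idx m l × Idx m l, (n b : ℂ) * ((w1 b.1 : ℂ) * p + (w2 b.1 : ℂ) * q) =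
      ((∑ b : Idx m l × Idx m l, w1 b.1 * n b : ℕ) : ℂ) * p + ((∑ b : Idx m l × Idx m l, w2 b.1 * n b : ℕ) : ℂ) * q := by
    intro n
    push_cast
    rw [Finset.sum_mul, Finset.sum_mul, ← Finset.sum_add_distrib]
    refine Finset.sum_congr rfl fun b _ => ?_
    ring
  have e2 : ∀ n : Idx m l × Idx m l →₀ ℕ, ∏ b : Idx m l × Idx m l, (s₁ ^ w1 b.1 * s₂ ^ w2 b.1) ^ n b =
      s₁ ^ (∑ b : Idx m l × Idx m l, w1 b.1 * n b) * s₂ ^ (∑ b : Idx m l × Idx m l, w2 b.1 * n b) := by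
    intro n
    rw [← Finset.prod_pow_eq_pow_sum, ← Finset.prod_pow_eq_pow_sum, ← Finset.prod_mul_distrib]
    refine Finset.prod_congr rfl fun b _ => ?_
    rw [mul_pow, ← pow_mul, ← pow_mul]
  rw [e1, e1] at h0
  rw [e2, e2]
  obtain ⟨h3, h4⟩ := hpq
    (((∑ b : Idx m l × Idx m l, w1 b.1 * n b : ℕ) : ℤ) - ((∑ b : Idx m l × Idx m l, w1 b.1 * n' b : ℕ) : ℤ))
    (((∑ b : Idx m l × Idx m l, w2 b.1 * n b : ℕ) : ℤ) - ((∑ b : Idx m l × Idx m l, w2 b.1 * n' b : ℕ) : ℤ)) (by
      rw [Int.cast_sub, Int.cast_sub, Int.cast_natCast, Int.cast_natCast, Int.cast_natCast, Int.cast_natCast]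
      linear_combination h0)
  rw [Nat.cast_inj.1 (sub_eq_zero.1 h3), Nat.cast_inj.1 (sub_eq_zero.1 h4)]

end

end Pool.Agent.V1138.CM
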