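import Pool.Agent.V1138.CM.Main

/-!
# The motivic torsor
-/

set_option autoImplicit false
set_option linter.unusedSectionVars false

open Matrix hiding row row_apply
open scoped PeriodPair

namespace Pool.Agent.V1138.CM

open Pool.Agent.TH127.PT Pool.Agent.W245.EB H667R3 Pool.Agent.V1138.OM Pool.Agent.Y123.ST

variable {L : PeriodPair} {m l : ℕ} {K : Subfield ℂ}

variable {A : Matrix (Fin 2) (Fin 2) ℤ} {α ρ r τ τ' : ℂ}

theorem GA_alg (h : CMd L A α ρ r τ τ') : SubT QB (GA m l (A.map (Int.cast : ℤ → ℂ))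
    (PP r * diagonal ![α, ρ] * PP (-r))) := by
  refine subT_iff.2 (GA_sub (fun i j => intCast_mem QB _) (mul_K (mul_K (PP_K h.hr) ?_) (PP_K (QB.neg_mem h.hr))))
  intro i j
  fin_cases i <;> fin_cases j
  · exact h.hα
  · exact QB.zero_mem
  · exact QB.zero_mem
  · exact h.hρ

theorem GA_eq (h : CMd L A α ρ r τ τ') {Y : Matrix (Fin 2) (Fin 2) ℂ} (hY : pm L = Y) :
    {x | ∃ g V W t, g.det ≠ 0 ∧ g * A.map (Int.cast : ℤ → ℂ) = A.map (Int.cast : ℤ → ℂ) * g ∧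
      W - Wᵀ = Vᵀ * JJ * V ∧ x = mk (Y * g) V W t} =
    GA m l (A.map (Int.cast : ℤ → ℂ)) (PP r * diagonal ![α, ρ] * PP (-r)) := by
  subst hY
  have hdet0 : (pm L).det ≠ 0 := by
    rw [det_pm]
    exact leg_ne L
  have hpu := isUnit_iff_ne_zero.2 hdet0
  ext x
  constructor
  · rintro ⟨g, V, W, t, hg, hgA, hW, rfl⟩
    refine ⟨⟨_, _, _, _, by rw [det_mul]; exact mul_ne_zero hdet0 hg, hW, rfl⟩, ?_⟩
    rw [by_mk, Matrix.mul_assoc (pm L), hgA, ← Matrix.mul_assoc (pm L), h.rel, Matrix.mul_assoc _ (pm L) g]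
  · rintro ⟨⟨y, V, W, t, hy, hW, rfl⟩, hyA⟩
    rw [by_mk] at hyA
    have hrel := h.rel
    set B := PP r * diagonal ![α, ρ] * PP (-r) with hB
    refine ⟨(pm L)⁻¹ * y, V, W, t, ?_, ?_, hW, ?_⟩
    · rw [det_mul, det_nonsing_inv, Ring.inverse_eq_inv']
      exact mul_ne_zero (inv_ne_zero hdet0) hy
    · have e1 : (pm L)⁻¹ * B = A.map (Int.cast : ℤ → ℂ) * (pm L)⁻¹ := by
        have e2 : B = pm L * A.map (Int.cast : ℤ → ℂ) * (pm L)⁻¹ := by
          rw [hrel, Matrix.mul_assoc, Matrix.mul_nonsing_inv _ hpu, Matrix.mul_one]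
        rw [e2, ← Matrix.mul_assoc, ← Matrix.mul_assoc, Matrix.nonsing_inv_mul _ hpu, Matrix.one_mul]
      rw [Matrix.mul_assoc, hyA, ← Matrix.mul_assoc, e1, Matrix.mul_assoc]
    · rw [← Matrix.mul_assoc, Matrix.mul_nonsing_inv _ hpu, Matrix.one_mul]

end Pool.Agent.V1138.CM
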