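import Pool.Agent.V1138.CM.Tor

/-!
# The unipotent part of a subtorsor over an algebraically closed field
-/

set_option autoImplicit false
set_option linter.unusedSectionVars false

open Matrix hiding row row_apply
open MvPolynomial

namespace Pool.Agent.V1138.CM

open Pool.Agent.TH127.PT Pool.Agent.TH119.MX Pool.Agent.TH119.DR Pool.Agent.Y123.ST Pool.Agent.V1138.OM

variable {m l : ℕ} {K : Subfield ℂ}

/-- unipotent matrices -/
def PP (r : ℂ) : Matrix (Fin 2) (Fin 2) ℂ := !![1, 0; r, 1]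

theorem PP_mul (r : ℂ) : PP r * PP (-r) = 1 := by
  ext i j
  fin_cases i <;> fin_cases j <;> simp [PP, Matrix.mul_apply, Fin.sum_univ_two]

theorem PP_mul' (r : ℂ) : PP (-r) * PP r = 1 := by
  ext i j
  fin_cases i <;> fin_cases j <;> simp [PP, Matrix.mul_apply, Fin.sum_univ_two]

theorem PP_det (r : ℂ) : (PP r).det = 1 := by
  simp [PP, Matrix.det_fin_two]

theorem PP_K {r : ℂ} (h : r ∈ K) (i j : Fin 2) : PP r i j ∈ K := by
  fin_cases i <;> fin_cases j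
  · exact K.one_mem
  · exact K.zero_mem
  · exact h
  · exact K.one_mem

/-- the elements which intertwine `A` and `B` -/
def GA (m l : ℕ) (A B : Matrix (Fin 2) (Fin 2) ℂ) : Set (Matrix (Idx m l) (Idx m l) ℂ) :=
  {x | x ∈ GG m l ∧ by' x * A = B * by' x}

theorem by_inv {x : Matrix (Idx m l) (Idx m l) ℂ} (hx : x ∈ GG m l) : by' x * by' x⁻¹ = 1 ∧ by' x⁻¹ * by' x = 1 := by
  have h1 := (blocks_mul hx (GG_inv hx)).1
  rw [Matrix.mul_nonsing_inv _ ((Matrix.isUnit_iff_isUnit_det x).1 (isUnit_of hx))] at h1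
  have h2 : by' (1 : Matrix (Idx m l) (Idx m l) ℂ) = 1 := by
    have := by_mk (m := m) (l := l) 1 0 0 0
    rwa [mk_one] at this
  rw [h2] at h1
  exact ⟨h1.symm, mul_eq_one_comm.1 h1.symm⟩

theorem GA_sub {A B : Matrix (Fin 2) (Fin 2) ℂ} (hA : ∀ i j, A i j ∈ K) (hB : ∀ i j, B i j ∈ K) :
    IsSubtorsor K (GA m l A B) := by
  have hF : ∀ i j : Fin 2, ∃ P : MvPolynomial (Idx m l × Idx m l) ℂ,
      P ∈ (MvPolynomial.map (σ := Idx m l × Idx m l) (algebraMap K ℂ)).range ∧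
      ∀ x, (by' x * A - B * by' x) i j = eval (fl x) P := by
    intro i j
    have hc : ∀ i j : Idx m l, PD K (fun x => x i j) (fun v => v i j) := fun i j => PD.coord (i, j)
    have hy : ∀ a b, PD K (fun x : Matrix (Idx m l) (Idx m l) ℂ => by' x a b) (fun v => by' v a b) :=
      fun a b => hc _ _
    have h1 := (((hy i 0).mul (PD.const (hA 0 j))).add ((hy i 1).mul (PD.const (hA 1 j)))).sub
      (((PD.const (hB i 0)).mul (hy 0 j)).add ((PD.const (hB i 1)).mul (hy 1 j)))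
    obtain ⟨P, h2, h3, -⟩ := h1
    refine ⟨P, h2, fun x => ?_⟩
    rw [← h3 x, Matrix.sub_apply, Matrix.mul_apply, Matrix.mul_apply, Fin.sum_univ_two, Fin.sum_univ_two]
  choose P hP1 hP2 using hF
  have hG := GG_sub (m := m) (l := l) K
  obtain ⟨I, h1, h2⟩ := hG.algebraic
  refine ⟨fun x hx => isUnit_of hx.1, ?_, I ∪ {p | ∃ i j, p = P i j}, ?_, fun x => ?_⟩
  · rintro x ⟨hx, hx'⟩ y ⟨hy, hy'⟩ z ⟨hz, hz'⟩
    refine ⟨hG.torsor x hx y hy z hz, ?_⟩
    rw [(blocks_mul (GG_mul hx (GG_inv hy)) hz).1, (blocks_mul hx (GG_inv hy)).1]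
    obtain ⟨e1, e2⟩ := by_inv hy
    have e3 : by' y⁻¹ * B = A * by' y⁻¹ := by
      calc by' y⁻¹ * B = by' y⁻¹ * (B * by' y) * by' y⁻¹ := by
            rw [Matrix.mul_assoc, Matrix.mul_assoc B, e1, Matrix.mul_one]
        _ = _ := by rw [← hy', ← Matrix.mul_assoc, e2, Matrix.one_mul]
    calc by' x * by' y⁻¹ * by' z * A = by' x * (by' y⁻¹ * B) * by' z := by
          rw [Matrix.mul_assoc, hz']
          simp only [Matrix.mul_assoc]
      _ = (by' x * A) * by' y⁻¹ * by' z := by rw [e3]; simp only [Matrix.mul_assoc]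
      _ = _ := by rw [hx']; simp only [Matrix.mul_assoc]
  · rintro p (hp | ⟨i, j, rfl⟩) n
    · exact h1 p hp n
    · obtain ⟨Q, hQ⟩ := hP1 i j
      rw [← hQ, coeff_map]
      exact (Q.coeff n).2
  · show x ∈ GG m l ∧ by' x * A = B * by' x ↔ _
    rw [h2]
    constructor
    · rintro ⟨⟨h3, h4⟩, h5⟩
      refine ⟨h3, ?_⟩
      rintro p (hp | ⟨i, j, rfl⟩)
      · exact h4 p hp
      · have h6 := hP2 i j x
        rw [h5, sub_self, Matrix.zero_apply] at h6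
        exact h6.symm
    · rintro ⟨h3, h4⟩
      refine ⟨⟨h3, fun p hp => h4 p (Or.inl hp)⟩, ?_⟩
      rw [← sub_eq_zero]
      ext i j
      rw [hP2 i j x]
      exact h4 _ (Or.inr ⟨i, j, rfl⟩)

/-- **The unipotent part of a subtorsor which contains a generic point.** -/
theorem uni_torsor [IsAlgClosed K] (hKa : ∀ z : ℂ, (∀ D : Derivation K ℂ ℂ, D z = 0) → z ∈ K)
    {T : Set (Matrix (Idx m l) (Idx m l) ℂ)} (hT : IsSubtorsor K T) {C : Matrix (Idx m l) (Idx m l) ℂ}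
    (hC : C ∈ T) (hCG : C ∈ GG m l) {α ρ r : ℂ} (hα : α ∈ K) (hρ : ρ ∈ K) (hr : r ∈ K) (hne : α ≠ ρ)
    {A : Matrix (Fin 2) (Fin 2) ℂ} (hA : ∀ i j, A i j ∈ K)
    (hCA : by' C * A = PP r * diagonal ![α, ρ] * PP (-r) * by' C)
    (c1 : ∀ (a : Fin 2) (v : Fin 2 → ℂ), (∀ i, v i ∈ K) → ((PP (-r) * by' C) *ᵥ v) a ∈ K →
      ((PP (-r) * by' C) *ᵥ v) a = 0)
    (c2 : ∀ (v v' : Fin 2 → ℂ) (z : ℂ), (∀ i, v i ∈ K) → (∀ i, v' i ∈ K) → z ∈ K →
      ((PP (-r) * by' C) *ᵥ v) 0 = z * ((PP (-r) * by' C) *ᵥ v') 1 → ((PP (-r) * by' C) *ᵥ v) 0 = 0)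
    (c3 : (by' C).det ∉ K)
    (c4 : ∀ (a : Fin 2) (u : Fin m → ℂ) (v : Fin 2 → ℂ) (b : ℂ), (∀ i, u i ∈ K) → (∀ i, v i ∈ K) → b ∈ K →
      ∑ j, (PP (-r) * bV C) a j * u j = ((PP (-r) * by' C) *ᵥ v) a + b → u = 0)
    (c5 : ∀ (u : Fin l → ℂ) (z b : ℂ), (∀ i, u i ∈ K) → z ∈ K → b ∈ K →
      ∑ j, bt C () j * u j = (by' C).det * z + b → u = 0)
    {V : Matrix (Fin 2) (Fin m) ℂ} {W : Matrix (Fin m) (Fin m) ℂ} {t : Matrix Unit (Fin l) ℂ}
    (hW : W - Wᵀ = Vᵀ * JJ * V) : mk 1 V W t * C ∈ T := by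
  set B := PP r * diagonal ![α, ρ] * PP (-r) with hBdef
  have hDK : ∀ i j, (diagonal ![α, ρ]) i j ∈ K := by
    intro i j
    fin_cases i <;> fin_cases j
    · exact hα
    · exact K.zero_mem
    · exact K.zero_mem
    · exact hρ
  have hBK : ∀ i j, B i j ∈ K := mul_K (mul_K (PP_K hr) hDK) (PP_K (K.neg_mem hr))
  have hT' := inter hT (GA_sub (m := m) (l := l) hA hBK)
  set T' := T ∩ GA m l A B with hT'def
  have hCT' : C ∈ T' := ⟨hC, hCG, hCA⟩
  obtain ⟨t₀, ht₀, ht₀K⟩ := exists_point' hT' hCT'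
  have ht₀G : t₀ ∈ GG m l := ht₀.2.1
  have hu₀ := isUnit_of ht₀G
  have hu₀' := (Matrix.isUnit_iff_isUnit_det t₀).1 hu₀
  set g : Matrix (Idx m l) (Idx m l) ℂ := mk (PP (-r)) 0 0 0 with hgdef
  have hg : g ∈ GG m l := ⟨_, _, _, _, by rw [PP_det]; exact one_ne_zero, by simp, rfl⟩
  have hgK : ∀ i j, g i j ∈ K := mk_K (PP_K (K.neg_mem hr)) (fun _ _ => K.zero_mem) (fun _ _ => K.zero_mem)
    (fun _ _ => K.zero_mem)
  have hginv : g⁻¹ = mk (PP r) 0 0 0 := by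
    refine Matrix.inv_eq_right_inv ?_
    rw [hgdef, mk_mul, PP_mul', ← mk_one]
    congr 1 <;> simp
  have hug := isUnit_of hg
  have hug' := (Matrix.isUnit_iff_isUnit_det g).1 hug
  set H : Set (Matrix (Idx m l) (Idx m l) ℂ) := {x | g⁻¹ * x * (g * t₀) ∈ T'} with hHdef
  have hbt₀ : by' t₀ * by' t₀⁻¹ = 1 := (by_inv ht₀G).1
  have hsbg : Sbg K H := by
    refine ⟨translate hT' (isUnit_of (GG_inv hg)) (hug.mul hu₀) (inv_K hgK) (mul_K hgK ht₀K), ?_, ?_⟩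
    · intro x hx
      have h1 : g⁻¹ * x * (g * t₀) ∈ GG m l := hx.2.1
      have h2 : x = g * (g⁻¹ * x * (g * t₀)) * (g * t₀)⁻¹ := by
        have h3 : IsUnit (g * t₀).det := (Matrix.isUnit_iff_isUnit_det _).1 (hug.mul hu₀)
        rw [← Matrix.mul_assoc, Matrix.mul_assoc (g * (g⁻¹ * x)), Matrix.mul_nonsing_inv _ h3, Matrix.mul_one,
          ← Matrix.mul_assoc, Matrix.mul_nonsing_inv _ hug', Matrix.one_mul]
      rw [h2]
      exact GG_mul (GG_mul hg h1) (GG_inv (GG_mul hg ht₀G))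
    · show g⁻¹ * 1 * (g * t₀) ∈ T'
      rw [Matrix.mul_one, ← Matrix.mul_assoc, Matrix.nonsing_inv_mul _ hug', Matrix.one_mul]
      exact ht₀
  have hcomm : ∀ x ∈ H, by' x * diagonal ![α, ρ] = diagonal ![α, ρ] * by' x := by
    intro x hx
    have hxG := hsbg.le hx
    have h1 := hx.2.2
    have h2 : by' (g⁻¹ * x * (g * t₀)) = PP r * by' x * (PP (-r) * by' t₀) := by
      rw [(blocks_mul (GG_mul (GG_inv hg) hxG) (GG_mul hg ht₀G)).1, (blocks_mul (GG_inv hg) hxG).1,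
        (blocks_mul hg ht₀G).1, hginv]
      rfl
    rw [h2] at h1
    have h3 : by' t₀ * A = B * by' t₀ := ht₀.2.2
    have h4 : PP r * by' x * (PP (-r) * by' t₀) * A = PP r * (by' x * diagonal ![α, ρ]) * (PP (-r) * by' t₀) := by
      rw [Matrix.mul_assoc, Matrix.mul_assoc (PP (-r)), h3, hBdef]
      calc PP r * by' x * (PP (-r) * (PP r * diagonal ![α, ρ] * PP (-r) * by' t₀)) =
          PP r * by' x * ((PP (-r) * PP r) * diagonal ![α, ρ] * PP (-r) * by' t₀) := by simp only [Matrix.mul_assoc]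
        _ = _ := by rw [PP_mul', Matrix.one_mul]; simp only [Matrix.mul_assoc]
    have h5 : B * (PP r * by' x * (PP (-r) * by' t₀)) = PP r * (diagonal ![α, ρ] * by' x) * (PP (-r) * by' t₀) := by
      rw [hBdef]
      calc PP r * diagonal ![α, ρ] * PP (-r) * (PP r * by' x * (PP (-r) * by' t₀)) =
          PP r * diagonal ![α, ρ] * (PP (-r) * PP r) * by' x * (PP (-r) * by' t₀) := by simp only [Matrix.mul_assoc]
        _ = _ := by rw [PP_mul', Matrix.mul_one]; simp only [Matrix.mul_assoc]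
    rw [h4, h5] at h1
    have h6 : ∀ M : Matrix (Fin 2) (Fin 2) ℂ,
        PP (-r) * (PP r * M * (PP (-r) * by' t₀)) * (by' t₀⁻¹ * PP r) = M := by
      intro M
      calc PP (-r) * (PP r * M * (PP (-r) * by' t₀)) * (by' t₀⁻¹ * PP r) =
          (PP (-r) * PP r) * M * (PP (-r) * (by' t₀ * by' t₀⁻¹) * PP r) := by simp only [Matrix.mul_assoc]
        _ = M := by rw [PP_mul', hbt₀, Matrix.mul_one, PP_mul', Matrix.one_mul, Matrix.mul_one]
    rw [← h6 (by' x * diagonal ![α, ρ]), h1, h6]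
  have hD : Dgn H := by
    refine ⟨fun x hx => ?_, fun x hx => ?_⟩
    · have h1 := congrFun (congrFun (hcomm x hx) 0) 1
      simp only [Matrix.mul_diagonal, Matrix.diagonal_mul, Matrix.cons_val_zero, Matrix.cons_val_one] at h1
      have h2 : (α - ρ) * by' x 0 1 = 0 := by linear_combination -h1
      exact (mul_eq_zero.1 h2).resolve_left (sub_ne_zero.2 hne)
    · have h1 := congrFun (congrFun (hcomm x hx) 1) 0
      simp only [Matrix.mul_diagonal, Matrix.diagonal_mul, Matrix.cons_val_zero, Matrix.cons_val_one] at h1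
      have h2 : (α - ρ) * by' x 1 0 = 0 := by linear_combination h1
      exact (mul_eq_zero.1 h2).resolve_left (sub_ne_zero.2 hne)
  -- the generic point
  have hg' : t₀⁻¹ * g⁻¹ ∈ GG m l := GG_mul (GG_inv ht₀G) (GG_inv hg)
  have hg'K : ∀ i j, (t₀⁻¹ * g⁻¹) i j ∈ K := mul_K (inv_K ht₀K) (inv_K hgK)
  have hC₀ : g * C * (t₀⁻¹ * g⁻¹) ∈ H := by
    show g⁻¹ * (g * C * (t₀⁻¹ * g⁻¹)) * (g * t₀) ∈ T'
    have h2 : g⁻¹ * (g * C * (t₀⁻¹ * g⁻¹)) * (g * t₀) = C := by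
      calc g⁻¹ * (g * C * (t₀⁻¹ * g⁻¹)) * (g * t₀) = (g⁻¹ * g) * C * t₀⁻¹ * (g⁻¹ * g) * t₀ := by
            simp only [Matrix.mul_assoc]
        _ = C * (t₀⁻¹ * t₀) := by
            rw [Matrix.nonsing_inv_mul _ hug', Matrix.one_mul, Matrix.mul_one, Matrix.mul_assoc]
        _ = C := by rw [Matrix.nonsing_inv_mul _ hu₀', Matrix.mul_one]
    rw [h2]
    exact hCT'
  obtain ⟨a1, a2, a3⟩ := blocks_mul hg hCG
  obtain ⟨b1, b2, b3⟩ := blocks_mul (GG_mul hg hCG) hg'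
  have hbg : by' g = PP (-r) := rfl
  have hbVg : bV g = 0 := rfl
  have hbtg : bt g = 0 := rfl
  rw [hbg] at a1 a2 a3
  rw [hbVg, add_zero] at a2
  rw [PP_det, one_smul, hbtg, add_zero] at a3
  rw [a1] at b1 b2 b3
  rw [a2] at b2
  rw [a3] at b3
  set g' := t₀⁻¹ * g⁻¹ with hg'def
  set Q := by' g' with hQ
  have hQK : ∀ i j, Q i j ∈ K := fun i j => hg'K _ _
  have hVK : ∀ i j, bV g' i j ∈ K := fun i j => hg'K (Sum.inl (Sum.inr (Sum.inl i))) (Sum.inl (Sum.inr (Sum.inr j)))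
  have htK : ∀ i j, bt g' i j ∈ K := fun i j => hg'K (Sum.inr (Sum.inl i)) (Sum.inr (Sum.inr j))
  have hQdet : Q.det ≠ 0 := (mem_GG_iff.1 hg').1
  have hQdK : Q.det ∈ K := by
    rw [Matrix.det_fin_two]
    exact K.sub_mem (K.mul_mem (hQK _ _) (hQK _ _)) (K.mul_mem (hQK _ _) (hQK _ _))
  have hmv : ∀ {n p : Type} [Fintype p] {M : Matrix n p ℂ} {v : p → ℂ}, (∀ i j, M i j ∈ K) → (∀ i, v i ∈ K) →
      ∀ i, (M *ᵥ v) i ∈ K := by
    intro n p _ M v hM hv i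
    exact K.sum_mem fun k _ => K.mul_mem (hM _ _) (hv _)
  set R := PP (-r) * by' C with hR
  have hent : ∀ a b, by' (g * C * g') a b = (R *ᵥ fun i => Q i b) a := by
    intro a b
    rw [b1]
    rfl
  have hdetC₀ : (by' (g * C * g')).det = (by' C).det * Q.det := by
    rw [b1, det_mul, hR, det_mul, PP_det, one_mul]
  have hdet0 : (by' (g * C * g')).det ≠ 0 := (mem_GG_iff.1 (hsbg.le hC₀)).1
  have y01 := hD.d01 _ hC₀
  have y10 := hD.d10 _ hC₀
  have hdd : (by' (g * C * g')).det = by' (g * C * g') 0 0 * by' (g * C * g') 1 1 := by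
    rw [Matrix.det_fin_two, y01, zero_mul, sub_zero]
  have hab : by' (g * C * g') 0 0 ≠ 0 ∧ by' (g * C * g') 1 1 ≠ 0 := by
    rw [hdd] at hdet0
    exact ⟨left_ne_zero_of_mul hdet0, right_ne_zero_of_mul hdet0⟩
  have hG : Gen K (by' (g * C * g')) := by
    refine ⟨y01, y10, ?_, ?_, ?_, ?_⟩
    · intro h0
      apply hab.1
      rw [hent] at h0 ⊢
      exact c1 0 _ (fun i => hQK _ _) h0
    · intro h0
      apply hab.2
      rw [hent] at h0 ⊢
      exact c1 1 _ (fun i => hQK _ _) h0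
    · intro h0
      apply c3
      rw [← hdd, hdetC₀] at h0
      have h1 : (by' C).det = (by' C).det * Q.det * Q.det⁻¹ := by
        rw [mul_assoc, mul_inv_cancel₀ hQdet, mul_one]
      rw [h1]
      exact K.mul_mem h0 (K.inv_mem hQdK)
    · intro h0
      apply hab.1
      rw [hent] at h0 ⊢
      refine c2 _ (fun i => Q i 1) _ (fun i => hQK _ _) (fun i => hQK _ _) h0 ?_
      rw [← hent 1 1, div_mul_cancel₀ _ hab.2]
  have hxG : mk 1 V W t ∈ GG m l := ⟨_, _, _, _, by simp, hW, rfl⟩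
  obtain ⟨V2, W2, t2, hW2, h2⟩ : ∃ V2 W2 t2, W2 - W2ᵀ = V2ᵀ * JJ * V2 ∧ g * mk 1 V W t * g⁻¹ = mk 1 V2 W2 t2 := by
    obtain ⟨y2, V2, W2, t2, -, hW2, e⟩ := GG_mul (GG_mul hg hxG) (GG_inv hg)
    refine ⟨V2, W2, t2, hW2, ?_⟩
    have h3 : by' (g * mk 1 V W t * g⁻¹) = 1 := by
      rw [hginv, hgdef, mk_mul, mk_mul, by_mk, Matrix.mul_one, PP_mul']
    rw [e, by_mk] at h3
    rw [e, h3]
  have h3 := uni_sbg hKa hsbg hD hC₀ hG (t := t2) (by
    intro a u z b hu hz hb h0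
    refine c4 a u (z • (fun i => Q i a) - bV g' *ᵥ u) b hu
      (fun i => K.sub_mem (K.mul_mem hz (hQK _ _)) (hmv hVK hu i)) hb ?_
    rw [Matrix.mulVec_sub, Matrix.mulVec_smul, Pi.sub_apply, Pi.smul_apply, ← hent a a, Matrix.mulVec_mulVec,
      smul_eq_mul]
    rw [b2] at h0
    have h1 : ∑ j, (R * bV g' + PP (-r) * bV C) a j * u j =
        ((R * bV g') *ᵥ u) a + ∑ j, (PP (-r) * bV C) a j * u j := by
      rw [Matrix.mulVec, dotProduct, ← Finset.sum_add_distrib]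
      refine Finset.sum_congr rfl fun j _ => ?_
      rw [Matrix.add_apply, add_mul]
    rw [h1] at h0
    linear_combination h0) (by
    intro u z b hu hz hb h0
    refine c5 u (Q.det * z - ∑ j, bt g' () j * u j) b hu
      (K.sub_mem (K.mul_mem hQdK hz) (K.sum_mem fun j _ => K.mul_mem (htK _ _) (hu _))) hb ?_
    rw [hdetC₀, b3, hR, det_mul, PP_det, one_mul] at h0
    have h1 : ∑ j, ((by' C).det • bt g' + bt C) () j * u j =
        (by' C).det * ∑ j, bt g' () j * u j + ∑ j, bt C () j * u j := by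
      rw [Finset.mul_sum, ← Finset.sum_add_distrib]
      refine Finset.sum_congr rfl fun j _ => ?_
      simp only [Matrix.add_apply, Matrix.smul_apply, smul_eq_mul]
      ring
    rw [h1] at h0
    linear_combination h0) hW2 hC₀
  rw [← h2] at h3
  have h4 : g⁻¹ * (g * mk 1 V W t * g⁻¹ * (g * C * g')) * (g * t₀) ∈ T' := h3
  have h5 : g⁻¹ * (g * mk 1 V W t * g⁻¹ * (g * C * g')) * (g * t₀) = mk 1 V W t * C := by
    rw [hg'def]
    calc g⁻¹ * (g * mk 1 V W t * g⁻¹ * (g * C * (t₀⁻¹ * g⁻¹))) * (g * t₀) =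
        (g⁻¹ * g) * mk 1 V W t * (g⁻¹ * g) * C * (t₀⁻¹ * (g⁻¹ * g) * t₀) := by simp only [Matrix.mul_assoc]
      _ = _ := by rw [Matrix.nonsing_inv_mul _ hug', Matrix.one_mul, Matrix.mul_one, Matrix.mul_one,
            Matrix.nonsing_inv_mul _ hu₀', Matrix.mul_one]
  rw [h5] at h4
  exact h4.1

end Pool.Agent.V1138.CM
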