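import Pool.Agent.V1138.CM.Tr

/-!
# The torus part of a subtorsor over a field which does not contain the multiplications
-/

set_option autoImplicit false
set_option linter.unusedSectionVars false

open Matrix hiding row row_apply
open MvPolynomial

namespace Pool.Agent.V1138.CM

open Pool.Agent.TH127.PT Pool.Agent.TH119.MX Pool.Agent.TH119.DR Pool.Agent.Y123.ST Pool.Agent.V1138.OM

variable {m l : ℕ} {K : Subfield ℂ}

theorem conj_lie {y X X' : Matrix (Fin 2) (Fin 2) ℂ} (h : y * X = X' * y) (htr : X.trace = X'.trace) :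
    mk (m := m) (l := l) y 0 0 0 * lie X 0 0 0 = lie X' 0 0 0 * mk y 0 0 0 := by
  unfold lie mk
  simp only [fromBlocks_multiply, Matrix.mul_zero, Matrix.zero_mul, add_zero, zero_add, Matrix.mul_one,
    Matrix.one_mul, Matrix.smul_mul, Matrix.mul_smul, fromCols_mul_fromBlocks, smul_smul, smul_cols, add_cols,
    smul_zero, transpose_zero]
  rw [h, htr, mul_comm]

/-- left translates by a complex point -/
theorem sbg_right {T : Set (Matrix (Idx m l) (Idx m l) ℂ)} (hT : IsSubtorsor K T) (hle : T ⊆ GG m l)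
    {C : Matrix (Idx m l) (Idx m l) ℂ} (hC : C ∈ T) : Sbg ⊤ {x | 1 * x * C ∈ T} := by
  have hu := isUnit_of (hle hC)
  have hu' := (Matrix.isUnit_iff_isUnit_det C).1 hu
  refine ⟨translate (extend le_top hT) isUnit_one hu (fun _ _ => Subfield.mem_top _) (fun _ _ => Subfield.mem_top _),
    ?_, ?_⟩
  · intro x hx
    have h1 : 1 * x * C ∈ GG m l := hle hx
    have h2 : x = 1 * x * C * C⁻¹ := by
      rw [Matrix.one_mul, Matrix.mul_assoc, Matrix.mul_nonsing_inv C hu', Matrix.mul_one]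
    rw [h2]
    exact GG_mul h1 (GG_inv (hle hC))
  · show 1 * 1 * C ∈ T
    rwa [Matrix.one_mul, Matrix.one_mul]

theorem sbg_left {T : Set (Matrix (Idx m l) (Idx m l) ℂ)} (hT : IsSubtorsor K T) (hle : T ⊆ GG m l)
    {C : Matrix (Idx m l) (Idx m l) ℂ} (hC : C ∈ T) : Sbg ⊤ {x | C * x * 1 ∈ T} := by
  have hu := isUnit_of (hle hC)
  have hu' := (Matrix.isUnit_iff_isUnit_det C).1 hu
  refine ⟨translate (extend le_top hT) hu isUnit_one (fun _ _ => Subfield.mem_top _) (fun _ _ => Subfield.mem_top _),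
    ?_, ?_⟩
  · intro x hx
    have h1 : C * x * 1 ∈ GG m l := hle hx
    have h2 : x = C⁻¹ * (C * x * 1) := by
      rw [Matrix.mul_one, ← Matrix.mul_assoc, Matrix.nonsing_inv_mul C hu', Matrix.one_mul]
    rw [h2]
    exact GG_mul (GG_inv (hle hC)) h1
  · show C * 1 * 1 ∈ T
    rwa [Matrix.mul_one, Matrix.mul_one]

theorem LA_right {T : Set (Matrix (Idx m l) (Idx m l) ℂ)} {C : Matrix (Idx m l) (Idx m l) ℂ} (hu : IsUnit C)
    {w : Matrix (Idx m l) (Idx m l) ℂ} (hw : w ∈ LA T) : w ∈ LA {x | 1 * x * C ∈ T} := by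
  refine LA_translate isUnit_one hu ?_
  rwa [inv_one, Matrix.mul_one, Matrix.one_mul]

theorem LA_left {T : Set (Matrix (Idx m l) (Idx m l) ℂ)} {C : Matrix (Idx m l) (Idx m l) ℂ} (hu : IsUnit C)
    {w : Matrix (Idx m l) (Idx m l) ℂ} (hw : C * w * C⁻¹ ∈ LA T) : w ∈ LA {x | C * x * 1 ∈ T} :=
  LA_translate hu isUnit_one hw

theorem by_right {T : Set (Matrix (Idx m l) (Idx m l) ℂ)} (hT : IsSubtorsor K T) (hle : T ⊆ GG m l)
    {C : Matrix (Idx m l) (Idx m l) ℂ} (hC : C ∈ T) {w : Matrix (Idx m l) (Idx m l) ℂ} (hw : w ∈ LA T) :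
    by' (w * C) = by' w * by' C := by
  have h1 := sbg_right hT hle hC
  obtain ⟨e1, -⟩ := shape h1.le h1.one (LA_right (isUnit_of (hle hC)) hw)
  have e3 := (mem_GG_iff.1 (hle hC)).2.2
  conv_lhs => rw [e1, e3]
  exact (lie_mk _ _ _ _ _ _ _ _).1

/-- the two Lie algebras -/
theorem rr_rel {T : Set (Matrix (Idx m l) (Idx m l) ℂ)} (hT : IsSubtorsor K T) (hle : T ⊆ GG m l)
    {C : Matrix (Idx m l) (Idx m l) ℂ} (hC : C ∈ T) {w w' : Matrix (Idx m l) (Idx m l) ℂ} (hw : w ∈ LA T)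
    (h : C * w' = w * C) : by' C * by' w' = by' w * by' C := by
  have hu := isUnit_of (hle hC)
  have hu' := (Matrix.isUnit_iff_isUnit_det C).1 hu
  have h1 := sbg_right hT hle hC
  have h2 := sbg_left hT hle hC
  obtain ⟨e1, -⟩ := shape h1.le h1.one (LA_right hu hw)
  have hw' : C * w' * C⁻¹ ∈ LA T := by
    rwa [h, Matrix.mul_assoc, Matrix.mul_nonsing_inv C hu', Matrix.mul_one]
  obtain ⟨e2, -⟩ := shape h2.le h2.one (LA_left hu hw')
  have e3 := (mem_GG_iff.1 (hle hC)).2.2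
  have h3 := congrArg by' h
  have e4 : by' (C * w') = by' C * by' w' := by
    conv_lhs => rw [e3, e2]
    exact (mk_lie _ _ _ _ _ _ _ _).1
  rw [← e4, ← by_right hT hle hC hw, h]

theorem pd_eq (r x y : ℂ) : PP r * diagonal ![x, y] * PP (-r) = !![x, 0; r * x - r * y, y] := by
  ext i j
  rw [Matrix.mul_apply, Fin.sum_univ_two, Matrix.mul_diagonal, Matrix.mul_diagonal]
  fin_cases i <;> fin_cases j <;> simp [PP]
  ring

/-- the multiplications in the de Rham realisation -/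
theorem comb_eq {α ρ r : ℂ} (v₀ v₁ : ℂ) : v₀ • (1 : Matrix (Fin 2) (Fin 2) ℂ) +
    v₁ • (PP r * diagonal ![α, ρ] * PP (-r)) = PP r * diagonal ![v₀ + v₁ * α, v₀ + v₁ * ρ] * PP (-r) := by
  rw [pd_eq, pd_eq]
  ext i j
  fin_cases i <;> fin_cases j
  · simp
  · simp
  · simp
    ring
  · simp

theorem exists_ind {T : Set (Matrix (Idx m l) (Idx m l) ℂ)} (hT : IsSubtorsor K T) (hle : T ⊆ GG m l)
    {C : Matrix (Idx m l) (Idx m l) ℂ} (hC : C ∈ T) {α ρ r : ℂ} (hne : α ≠ ρ) (hα : α ∉ K) {s : ℤ}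
    (hs : α + ρ = s) {A : Matrix (Fin 2) (Fin 2) ℤ}
    (hCA : by' C * A.map (Int.cast : ℤ → ℂ) = PP r * diagonal ![α, ρ] * PP (-r) * by' C)
    (d1 : ∃ (D : Derivation K ℂ ℂ) (p q : ℂ), (by' C).map D = PP r * diagonal ![p, q] * PP (-r) * by' C ∧ p + q ≠ 0)
    (d2 : ∃ (D : Derivation K ℂ ℂ) (p q : ℂ), (by' C).map D = PP r * diagonal ![p, q] * PP (-r) * by' C ∧ p ≠ q) :
    ∃ p q : ℂ, (∀ j k : ℤ, (j : ℂ) * p + k * q = 0 → j = 0 ∧ k = 0) ∧
      ∃ w ∈ LA T, by' w = PP r * diagonal ![p, q] * PP (-r) := by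
  have hu := isUnit_of (hle hC)
  have hu' := (Matrix.isUnit_iff_isUnit_det C).1 hu
  have hy : IsUnit (by' C).det := isUnit_iff_ne_zero.2 (mem_GG_iff.1 (hle hC)).1
  have hdne : α - ρ ≠ 0 := sub_ne_zero.2 hne
  set Ac : Matrix (Fin 2) (Fin 2) ℂ := A.map (Int.cast : ℤ → ℂ) with hAc
  set B := PP r * diagonal ![α, ρ] * PP (-r) with hB
  let M : Submodule ℂ (Fin 2 → ℂ) :=
    { carrier := {v | ∃ w : Matrix (Idx m l) (Idx m l) ℂ, fl w ∈ RR T ∧ by' w = v 0 • 1 + v 1 • Ac}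
      zero_mem' := ⟨0, (RR T).zero_mem, by
        show (0 : Matrix (Fin 2) (Fin 2) ℂ) = (0 : ℂ) • 1 + (0 : ℂ) • Ac
        rw [zero_smul, zero_smul, add_zero]⟩
      add_mem' := by
        rintro v v' ⟨w, h1, h2⟩ ⟨w', h1', h2'⟩
        refine ⟨w + w', (RR T).add_mem h1 h1', ?_⟩
        show by' w + by' w' = (v 0 + v' 0) • 1 + (v 1 + v' 1) • Ac
        rw [h2, h2', add_smul, add_smul]
        abel
      smul_mem' := by
        rintro a v ⟨w, h1, h2⟩
        refine ⟨a • w, (RR T).smul_mem a h1, ?_⟩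
        show a • by' w = (a * v 0) • 1 + (a * v 1) • Ac
        rw [h2, smul_add, smul_smul, smul_smul] }
  have hMf : ∀ (f : ℂ →ₗ[K] ℂ), ∀ v ∈ M, (fun a => f (v a)) ∈ M := by
    rintro f v ⟨w, h1, h2⟩
    refine ⟨w.map f, (RR_def hT).map f h1, ?_⟩
    show (by' w).map f = f (v 0) • 1 + f (v 1) • Ac
    rw [h2]
    ext i j
    rw [Matrix.map_apply, Matrix.add_apply, Matrix.add_apply, Matrix.smul_apply, Matrix.smul_apply,
      Matrix.smul_apply, Matrix.smul_apply, map_add]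
    congr 1
    · rw [Matrix.one_apply]
      split_ifs <;> simp
    · rw [hAc, Matrix.map_apply, smul_eq_mul, smul_eq_mul, mul_comm, mul_comm (f (v 1)), ← zsmul_eq_mul,
        ← zsmul_eq_mul, map_zsmul]
  -- from the right to the left
  have hM1 : ∀ v ∈ M, ∃ w ∈ LA T, by' w = PP r * diagonal ![v 0 + v 1 * α, v 0 + v 1 * ρ] * PP (-r) := by
    rintro v ⟨w, h1, h2⟩
    have h3 : C * w * C⁻¹ ∈ LA T := conj_mem' hT hC h1
    refine ⟨_, h3, ?_⟩
    have h4 := rr_rel hT hle hC h3 (w' := w) (by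
      rw [Matrix.mul_assoc, Matrix.nonsing_inv_mul C hu', Matrix.mul_one])
    rw [h2, Matrix.mul_add, Matrix.mul_smul, Matrix.mul_smul, hCA, Matrix.mul_one] at h4
    have h5 : (by' (C * w * C⁻¹)) * by' C * (by' C)⁻¹ = by' (C * w * C⁻¹) := by
      rw [Matrix.mul_assoc, Matrix.mul_nonsing_inv _ hy, Matrix.mul_one]
    rw [← h5, ← h4, ← comb_eq, Matrix.add_mul, Matrix.smul_mul, Matrix.smul_mul, Matrix.mul_assoc B,
      Matrix.mul_nonsing_inv _ hy, Matrix.mul_one]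
  -- the logarithmic derivatives
  have hM2 : ∀ (D : Derivation K ℂ ℂ) (p q : ℂ), (by' C).map D = PP r * diagonal ![p, q] * PP (-r) * by' C →
      ![p - (p - q) / (α - ρ) * α, (p - q) / (α - ρ)] ∈ M := by
    intro D p q h0
    have h1 := LA_logder hT D hC
    have h2 : fl (C⁻¹ * (C.map D * C⁻¹) * C) ∈ RR T := conj_mem hT hC h1
    refine ⟨_, h2, ?_⟩
    have h3 := rr_rel hT hle hC h1 (w' := C⁻¹ * (C.map D * C⁻¹) * C) (by
      rw [← Matrix.mul_assoc, ← Matrix.mul_assoc C, Matrix.mul_nonsing_inv C hu', Matrix.one_mul])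
    have h4 : by' (C.map D * C⁻¹) * by' C = (by' C).map D := by
      rw [← by_right hT hle hC h1, Matrix.mul_assoc, Matrix.nonsing_inv_mul C hu', Matrix.mul_one]
      rfl
    rw [h4, h0] at h3
    show by' (C⁻¹ * (C.map D * C⁻¹) * C) = (p - (p - q) / (α - ρ) * α) • 1 + ((p - q) / (α - ρ)) • Ac
    have h5 : (p - (p - q) / (α - ρ) * α) • (1 : Matrix (Fin 2) (Fin 2) ℂ) + ((p - q) / (α - ρ)) • B =
        PP r * diagonal ![p, q] * PP (-r) := by
      rw [hB, comb_eq]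
      have e1 : p - (p - q) / (α - ρ) * α + (p - q) / (α - ρ) * α = p := by ring
      have e2 : p - (p - q) / (α - ρ) * α + (p - q) / (α - ρ) * ρ = q := by
        field_simp
        ring
      rw [e1, e2]
    have h6 : by' C * ((p - (p - q) / (α - ρ) * α) • (1 : Matrix (Fin 2) (Fin 2) ℂ) + ((p - q) / (α - ρ)) • Ac) =
        PP r * diagonal ![p, q] * PP (-r) * by' C := by
      rw [← h5, Matrix.mul_add, Matrix.mul_smul, Matrix.mul_smul, hCA, Matrix.mul_one, Matrix.add_mul,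
        Matrix.smul_mul, Matrix.smul_mul, Matrix.one_mul]
    rw [← h6] at h3
    exact ((Matrix.isUnit_iff_isUnit_det _).2 hy).mul_left_cancel h3
  by_cases hM : M = ⊤
  · refine ⟨1, Complex.I, ?_, ?_⟩
    · intro j k h0
      have h1 := congrArg Complex.re h0
      have h2 := congrArg Complex.im h0
      simp at h1 h2
      exact ⟨by exact_mod_cast h1, by exact_mod_cast h2⟩
    · obtain ⟨w, hw, hw1⟩ := hM1 ![1 - (1 - Complex.I) / (α - ρ) * α, (1 - Complex.I) / (α - ρ)] (by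
        rw [hM]; trivial)
      refine ⟨w, hw, ?_⟩
      rw [hw1]
      have e1 : (1 : ℂ) - (1 - Complex.I) / (α - ρ) * α + (1 - Complex.I) / (α - ρ) * α = 1 := by ring
      have e2 : (1 : ℂ) - (1 - Complex.I) / (α - ρ) * α + (1 - Complex.I) / (α - ρ) * ρ = Complex.I := by
        field_simp
        ring
      simp only [Matrix.cons_val_zero, Matrix.cons_val_one]
      rw [e1, e2]
  · obtain ⟨u, huK, hu0, hu⟩ := exists_func (K := K) M hMf hM
    obtain ⟨D₂, p₂, q₂, h₂, hne₂⟩ := d2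
    obtain ⟨D₁, p₁, q₁, h₁, hne₁⟩ := d1
    have r₂ := hu _ (hM2 D₂ p₂ q₂ h₂)
    have m₁ := hM2 D₁ p₁ q₁ h₁
    have r₁ := hu _ m₁
    rw [Fin.sum_univ_two] at r₁ r₂
    simp only [Matrix.cons_val_zero, Matrix.cons_val_one] at r₁ r₂
    have n0 : u 0 ≠ 0 := by
      intro h0
      rw [h0, mul_zero, zero_add] at r₂
      rcases mul_eq_zero.1 r₂ with h1 | h1
      · rw [div_eq_zero_iff] at h1
        rcases h1 with h1 | h1
        · exact hne₂ (sub_eq_zero.1 h1)
        · exact hdne h1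
      · apply hu0
        funext i
        fin_cases i
        · exact h0
        · exact h1
    obtain ⟨w, hw, hw1⟩ := hM1 _ m₁
    set v₁ := (p₁ - q₁) / (α - ρ) with hv₁
    set v₀ := p₁ - v₁ * α with hv₀
    simp only [Matrix.cons_val_zero, Matrix.cons_val_one] at hw1
    refine ⟨v₀ + v₁ * α, v₀ + v₁ * ρ, ?_, w, hw, hw1⟩
    have hpq : v₀ + v₁ * α + (v₀ + v₁ * ρ) ≠ 0 := by
      have e1 : v₀ + v₁ * α = p₁ := by rw [hv₀]; ring
      have e2 : v₀ + v₁ * ρ = q₁ := by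
        rw [hv₀, hv₁]
        field_simp
        ring
      rw [e1, e2]
      exact hne₁
    intro j k h0
    have hv0 : v₀ = -(v₁ * u 1 / u 0) := by
      field_simp
      linear_combination r₁
    have hv1 : v₁ ≠ 0 := by
      intro h1
      rw [h1, zero_mul, zero_div, neg_zero] at hv0
      apply hpq
      rw [hv0, h1]
      ring
    have hρ : ρ = s - α := by linear_combination hs
    have e1 : ((j : ℂ) - k) * α = ((j : ℂ) + k) * (u 1 / u 0) - k * s := by
      have h2 : v₁ * (((j : ℂ) - k) * α) = v₁ * (((j : ℂ) + k) * (u 1 / u 0) - k * s) := by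
        rw [hρ, hv0] at h0
        linear_combination h0
      exact mul_left_cancel₀ hv1 h2
    have hjk : j = k := by
      by_contra hjk
      apply hα
      have h3 : (j : ℂ) - k ≠ 0 := by
        rw [sub_ne_zero]
        exact_mod_cast hjk
      have h4 : α = (((j : ℂ) + k) * (u 1 / u 0) - k * s) / ((j : ℂ) - k) := by
        rw [eq_div_iff h3]
        linear_combination e1
      rw [h4]
      exact K.div_mem (K.sub_mem (K.mul_mem (K.add_mem (intCast_mem K j) (intCast_mem K k))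
        (K.div_mem (huK 1) (huK 0))) (K.mul_mem (intCast_mem K k) (intCast_mem K s)))
        (K.sub_mem (intCast_mem K j) (intCast_mem K k))
    subst hjk
    have h5 : (j : ℂ) * (v₀ + v₁ * α + (v₀ + v₁ * ρ)) = 0 := by linear_combination h0
    have h6 := (mul_eq_zero.1 h5).resolve_right hpq
    have h7 : j = 0 := by exact_mod_cast h6
    exact ⟨h7, h7⟩

/-- **The torus part.** -/
theorem torus_torsor {T : Set (Matrix (Idx m l) (Idx m l) ℂ)} (hT : IsSubtorsor K T) (hle : T ⊆ GG m l)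
    {C : Matrix (Idx m l) (Idx m l) ℂ} (hC : C ∈ T) {α ρ r : ℂ} (hne : α ≠ ρ) (hα : α ∉ K) {s : ℤ}
    (hs : α + ρ = s) {A : Matrix (Fin 2) (Fin 2) ℤ}
    (hCA : by' C * A.map (Int.cast : ℤ → ℂ) = PP r * diagonal ![α, ρ] * PP (-r) * by' C)
    (d1 : ∃ (D : Derivation K ℂ ℂ) (p q : ℂ), (by' C).map D = PP r * diagonal ![p, q] * PP (-r) * by' C ∧ p + q ≠ 0)
    (d2 : ∃ (D : Derivation K ℂ ℂ) (p q : ℂ), (by' C).map D = PP r * diagonal ![p, q] * PP (-r) * by' C ∧ p ≠ q)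
    (hU : ∀ (V : Matrix (Fin 2) (Fin m) ℂ) (W : Matrix (Fin m) (Fin m) ℂ) (t : Matrix Unit (Fin l) ℂ),
      W - Wᵀ = Vᵀ * JJ * V → mk 1 V W t * C ∈ T)
    {s₁ s₂ : ℂ} (h₁ : s₁ ≠ 0) (h₂ : s₂ ≠ 0) {V : Matrix (Fin 2) (Fin m) ℂ} {W : Matrix (Fin m) (Fin m) ℂ}
    {t : Matrix Unit (Fin l) ℂ} (hW : W - Wᵀ = Vᵀ * JJ * V) :
    mk (PP r * diagonal ![s₁, s₂] * PP (-r)) V W t * C ∈ T := by
  obtain ⟨p, q, hpq, w, hw, hby⟩ := exists_ind hT hle hC hne hα hs hCA d1 d2
  have hCu := isUnit_of (hle hC)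
  have hCu' := (Matrix.isUnit_iff_isUnit_det C).1 hCu
  have hp : p ≠ 0 := by
    intro h0
    have := (hpq 1 0 (by rw [h0]; simp)).1
    exact one_ne_zero this
  have hq : q ≠ 0 := by
    intro h0
    have := (hpq 0 1 (by rw [h0]; simp)).2
    exact one_ne_zero this
  have hpq' : p + q ≠ 0 := by
    intro h0
    have := (hpq 1 1 (by push_cast; linear_combination h0)).1
    exact one_ne_zero this
  have hH := sbg_right hT hle hC
  set H : Set (Matrix (Idx m l) (Idx m l) ℂ) := {x | 1 * x * C ∈ T} with hHdef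
  have hwH : w ∈ LA H := LA_right hCu hw
  obtain ⟨e1, e2⟩ := shape hH.le hH.one hwH
  have hdet : (by' w).det ≠ 0 := by
    rw [hby, det_mul, det_mul, PP_det, PP_det, one_mul, mul_one, Matrix.det_diagonal, Fin.prod_univ_two]
    exact mul_ne_zero hp hq
  have htr1 : (by' w).trace = p + q := by
    rw [hby, Matrix.trace_mul_comm, ← Matrix.mul_assoc, PP_mul', Matrix.one_mul, Matrix.trace_diagonal,
      Fin.sum_univ_two]
    rfl
  have htr : (by' w).trace ≠ 0 := by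
    rw [htr1]
    exact hpq'
  obtain ⟨A', W', t', hW', -, hconj⟩ := exists_conj (X := by' w) hdet htr (A := bV w) (B := bW w) e2 (s := bt w)
    (K := ⊤) (fun _ _ => Subfield.mem_top _) (fun _ _ => Subfield.mem_top _) (fun _ _ => Subfield.mem_top _)
    (fun _ _ => Subfield.mem_top _)
  rw [← e1] at hconj
  have hgH : mk 1 A' W' t' ∈ H := by
    show 1 * mk 1 A' W' t' * C ∈ T
    rw [Matrix.one_mul]
    exact hU _ _ _ hW'
  have hgu' := (Matrix.isUnit_iff_isUnit_det _).1 (isUnit_of (hH.le hgH))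
  have h3 : lie (by' w) 0 0 0 ∈ LA H := by
    have h4 := LA_conj hH.sub hH.one hgH hwH
    rwa [← hconj, Matrix.mul_assoc, Matrix.mul_nonsing_inv _ hgu', Matrix.mul_one] at h4
  -- conjugation
  set g : Matrix (Idx m l) (Idx m l) ℂ := mk (PP (-r)) 0 0 0 with hgdef
  have hg : g ∈ GG m l := ⟨_, _, _, _, by rw [PP_det]; exact one_ne_zero, by simp, rfl⟩
  have hginv : g⁻¹ = mk (PP r) 0 0 0 := by
    refine Matrix.inv_eq_right_inv ?_
    rw [hgdef, mk_mul, PP_mul', ← mk_one]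
    congr 1 <;> simp
  have hug := isUnit_of hg
  have hug' := (Matrix.isUnit_iff_isUnit_det g).1 hug
  have hH2 := conj_sbg hH hg (fun _ _ => Subfield.mem_top _)
  have h5 : lie (diagonal ![p, q]) 0 0 0 ∈ LA {x | g⁻¹ * x * g ∈ H} := by
    refine LA_translate (isUnit_of (GG_inv hg)) hug ?_
    rw [Matrix.nonsing_inv_nonsing_inv _ hug']
    have h6 : g⁻¹ * lie (diagonal ![p, q]) 0 0 0 = lie (by' w) 0 0 0 * g⁻¹ := by
      rw [hginv]
      refine conj_lie ?_ ?_
      · rw [hby, Matrix.mul_assoc _ (PP (-r)), PP_mul', Matrix.mul_one]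
      · rw [htr1, Matrix.trace_diagonal, Fin.sum_univ_two]
        rfl
    rw [h6, Matrix.mul_assoc, Matrix.nonsing_inv_mul _ hug', Matrix.mul_one]
    exact h3
  have h6 := torus_mem hH2.sub hpq h5 h₁ h₂ hH2.one
  have h7 : mk (PP r * diagonal ![s₁, s₂] * PP (-r)) 0 0 0 * C ∈ T := by
    have h8 : 1 * (g⁻¹ * (mk (diagonal ![s₁, s₂]) 0 0 0 * 1) * g) * C ∈ T := h6
    rwa [Matrix.mul_one, Matrix.one_mul, hginv, hgdef, mk_y_mul, mk_y_mul] at h8
  have h8 := hT.torsor _ (hU V W t hW) _ hC _ h7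
  rw [Matrix.mul_assoc (mk 1 V W t), Matrix.mul_nonsing_inv C hCu', Matrix.mul_one, ← Matrix.mul_assoc, ← mk_split] at h8
  exact h8

end Pool.Agent.V1138.CM
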