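import Pool.Agent.V1138.CM.Gr

/-!
# The unipotent part
-/

set_option autoImplicit false
set_option linter.unusedSectionVars false

open Matrix hiding row row_apply
open MvPolynomial

namespace Pool.Agent.V1138.CM

open Pool.Agent.TH127.PT Pool.Agent.TH119.MX Pool.Agent.TH119.DR Pool.Agent.Y123.ST Pool.Agent.V1138.OM

variable {m l : ℕ} {K : Subfield ℂ}

theorem row_add (a : Fin 2) (r r' : Fin m → ℂ) : row a (r + r') = row a r + row a r' := by
  ext b i
  simp only [row_apply, Matrix.add_apply, Pi.add_apply]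
  split_ifs <;> simp

theorem row_smul (a : Fin 2) (z : ℂ) (r : Fin m → ℂ) : row a (z • r) = z • row a r := by
  ext b i
  simp only [row_apply, Matrix.smul_apply, Pi.smul_apply]
  split_ifs <;> simp

theorem row_zero (a : Fin 2) : row (m := m) a 0 = 0 := by
  ext b i
  simp [row_apply]

/-- the rows of a homogeneous element -/
theorem rows {H : Set (Matrix (Idx m l) (Idx m l) ℂ)} {X : Matrix (Fin 2) (Fin 2) ℂ} (x01 : X 0 1 = 0)
    (x10 : X 1 0 = 0) (hne : X 0 0 ≠ X 1 1) (h1 : lie X 0 0 0 ∈ LA H) {A : Matrix (Fin 2) (Fin m) ℂ}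
    (hA : lie 0 A 0 0 ∈ LA H) (a : Fin 2) : lie 0 (row a (A a)) 0 0 ∈ LA H := by
  have h2 : lie 0 (X * A) 0 0 ∈ LA H := by
    have := LA_bracket h1 hA
    rw [lie_bracket] at this
    simpa using this
  have h3 : ∀ z : ℂ, lie 0 (X * A - z • A) 0 0 ∈ LA H := by
    intro z
    have := (LA H).sub_mem h2 ((LA H).smul_mem z hA)
    rw [lie_smul, lie_sub] at this
    simpa using this
  have hd : X 0 0 - X 1 1 ≠ 0 := sub_ne_zero.2 hne
  have hd' : X 1 1 - X 0 0 ≠ 0 := sub_ne_zero.2 hne.symm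
  fin_cases a
  · have h4 := (LA H).smul_mem (X 0 0 - X 1 1)⁻¹ (h3 (X 1 1))
    rw [lie_smul] at h4
    convert h4 using 1
    congr 1
    · simp
    · ext b i
      fin_cases b
      · simp [row_apply, Matrix.mul_apply, Fin.sum_univ_two, x01]
        field_simp
      · simp [row_apply, Matrix.mul_apply, Fin.sum_univ_two, x10]
    · simp
    · simp
  · have h4 := (LA H).smul_mem (X 1 1 - X 0 0)⁻¹ (h3 (X 0 0))
    rw [lie_smul] at h4
    convert h4 using 1
    congr 1
    · simp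
    · ext b i
      fin_cases b
      · simp [row_apply, Matrix.mul_apply, Fin.sum_univ_two, x01]
      · simp [row_apply, Matrix.mul_apply, Fin.sum_univ_two, x10]
        field_simp
    · simp
    · simp

/-- the vectors -/
theorem step2' (hKa : ∀ z : ℂ, (∀ D : Derivation K ℂ ℂ, D z = 0) → z ∈ K)
    {H : Set (Matrix (Idx m l) (Idx m l) ℂ)} (hH : Sbg K H) {C : Matrix (Idx m l) (Idx m l) ℂ}
    (hC : C ∈ H) (hG : Gen K (by' C))
    (hrow : ∀ w ∈ LA H, ∀ a, lie 0 (row a (bV w a)) 0 0 ∈ LA H)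
    (hV : ∀ (a : Fin 2) (u : Fin m → ℂ) (z : ℂ), (∀ i, u i ∈ K) → z ∈ K → ∑ j, bV C a j * u j = by' C a a * z → u = 0)
    (A : Matrix (Fin 2) (Fin m) ℂ) : lie 0 A 0 0 ∈ LA H := by
  classical
  have key : ∀ (a : Fin 2) (r : Fin m → ℂ), lie 0 (row a r) 0 0 ∈ LA H := by
    intro a
    let M : Submodule ℂ (Fin m → ℂ) :=
      { carrier := {r | lie 0 (row a r) 0 0 ∈ LA H}
        zero_mem' := by
          show lie 0 (row a 0) 0 0 ∈ LA H
          rw [row_zero, lie_zero]
          exact (LA H).zero_mem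
        add_mem' := by
          intro r r' hr hr'
          have := (LA H).add_mem hr hr'
          rw [lie_add, ← row_add] at this
          simpa using this
        smul_mem' := by
          intro z r hr
          have := (LA H).smul_mem z hr
          rw [lie_smul, ← row_smul] at this
          simpa using this }
    have hMf : ∀ (f : ℂ →ₗ[K] ℂ), ∀ r ∈ M, (fun a => f (r a)) ∈ M := by
      intro f r hr
      have h2 := LA_map hH.sub f hr
      have h3 := hrow _ h2 a
      rw [bV_map, bV_lie] at h3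
      show lie 0 (row a fun a => f (r a)) 0 0 ∈ LA H
      convert h3 using 2
      congr 1
      funext i
      rw [Matrix.map_apply, row_apply, if_pos rfl]
    have htop : M = ⊤ := by
      by_contra hne
      obtain ⟨u, huK, hu0, hu⟩ := exists_func (K := K) M hMf hne
      apply hu0
      have hA : ∀ w ∈ LA H, ∑ j, bV w a j * u j = 0 := fun w hw => hu _ (hrow w hw a)
      have hc0 : by' C a a ≠ 0 := by
        fin_cases a
        · exact hG.a0
        · exact hG.b0
      have hz : (∑ j, bV C a j * u j) / by' C a a ∈ K := by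
        refine hKa _ fun D => ?_
        obtain ⟨w, hw, -, -, e1, e2, -⟩ := logder_blocks hH hC D
        have e3 : by' w 0 1 = 0 ∧ by' w 1 0 = 0 := by
          have a1 := congrFun (congrFun e1 0) 1
          rw [Matrix.map_apply, Matrix.mul_apply, Fin.sum_univ_two, hG.y01, map_zero, mul_zero, zero_add] at a1
          have a2 := congrFun (congrFun e1 1) 0
          rw [Matrix.map_apply, Matrix.mul_apply, Fin.sum_univ_two, hG.y10, map_zero, mul_zero, add_zero] at a2
          exact ⟨(mul_eq_zero.1 a1.symm).resolve_right hG.b0, (mul_eq_zero.1 a2.symm).resolve_right hG.a0⟩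
        have e4 : D (by' C a a) = by' w a a * by' C a a := by
          have := congrFun (congrFun e1 a) a
          rw [Matrix.map_apply, Matrix.mul_apply, Fin.sum_univ_two] at this
          rw [this]
          fin_cases a
          · simp [hG.y10]
          · simp [hG.y01]
        have e5 : ∀ j, D (bV C a j) = by' w a a * bV C a j + bV w a j := by
          intro j
          have := congrFun (congrFun e2 a) j
          rw [Matrix.map_apply, Matrix.add_apply, Matrix.mul_apply, Fin.sum_univ_two] at this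
          rw [this]
          fin_cases a
          · simp [e3.1]
          · simp [e3.2]
        have e6 : D (∑ j, bV C a j * u j) = by' w a a * ∑ j, bV C a j * u j := by
          rw [map_sum]
          have h6 : ∀ j, D (bV C a j * u j) = by' w a a * (bV C a j * u j) + bV w a j * u j := by
            intro j
            rw [D.leibniz, der_mem D (huK j), smul_zero, zero_add, smul_eq_mul, e5 j]
            ring
          rw [Finset.sum_congr rfl fun j _ => h6 j, Finset.sum_add_distrib, hA w hw, add_zero, Finset.mul_sum]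
        rw [dlog D hc0 e6 e4, sub_self, zero_mul]
      refine hV a u _ huK hz ?_
      field_simp
    intro r
    have h2 : r ∈ M := by rw [htop]; trivial
    exact h2
  have h5 := (LA H).add_mem (key 0 (A 0)) (key 1 (A 1))
  rw [lie_add] at h5
  convert h5 using 1
  congr 1
  · simp
  · ext a i
    fin_cases a <;> simp [row_apply]
  · simp
  · simp

/-- the torus part -/
theorem step4' (hKa : ∀ z : ℂ, (∀ D : Derivation K ℂ ℂ, D z = 0) → z ∈ K)
    {H : Set (Matrix (Idx m l) (Idx m l) ℂ)} (hH : Sbg K H) {C : Matrix (Idx m l) (Idx m l) ℂ} (hC : C ∈ H)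
    (hgr : ∀ w ∈ LA H, lie 0 0 (bW w) (bt w) ∈ LA H) (hA : ∀ A : Matrix (Fin 2) (Fin m) ℂ, lie 0 A 0 0 ∈ LA H)
    (ht : ∀ (u : Fin l → ℂ) (z : ℂ), (∀ i, u i ∈ K) → z ∈ K → ∑ j, bt C () j * u j = (by' C).det * z → u = 0)
    (s : Matrix Unit (Fin l) ℂ) : lie 0 0 0 s ∈ LA H := by
  classical
  let M : Submodule ℂ (Fin l → ℂ) :=
    { carrier := {r | lie 0 0 0 (Matrix.of fun _ => r) ∈ LA H}
      zero_mem' := by
        show lie 0 0 0 0 ∈ LA H
        rw [lie_zero]
        exact (LA H).zero_mem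
      add_mem' := by
        intro r r' hr hr'
        have := (LA H).add_mem hr hr'
        rw [lie_add] at this
        simp only [add_zero] at this
        exact this
      smul_mem' := by
        intro z r hr
        have := (LA H).smul_mem z hr
        rw [lie_smul] at this
        simp only [smul_zero] at this
        exact this }
  have hMf : ∀ (f : ℂ →ₗ[K] ℂ), ∀ r ∈ M, (fun a => f (r a)) ∈ M := by
    intro f r hr
    have h2 := LA_map hH.sub f hr
    have h3 := hgr _ h2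
    rw [bt_map, bt_lie, bW_map, bW_lie] at h3
    have h4 : (0 : Matrix (Fin m) (Fin m) ℂ).map f = 0 := by
      ext i j
      simp
    rw [h4] at h3
    exact h3
  have htop : M = ⊤ := by
    by_contra hne
    obtain ⟨u, huK, hu0, hu⟩ := exists_func (K := K) M hMf hne
    apply hu0
    have hA' : ∀ w ∈ LA H, ∑ j, bt w () j * u j = 0 := by
      intro w hw
      have h2 := hgr w hw
      have h3 := step3 hA (shape hH.le hH.one hw).2
      have h4 := (LA H).sub_mem h2 h3
      rw [lie_sub] at h4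
      refine hu (bt w ()) ?_
      show lie 0 0 0 (Matrix.of fun _ => bt w ()) ∈ LA H
      convert h4 using 1
      congr 1
      · simp
      · simp
      · simp
      · ext i j
        simp
    have hdet : (by' C).det ≠ 0 := (mem_GG_iff.1 (hH.le hC)).1
    have hz : (∑ j, bt C () j * u j) / (by' C).det ∈ K := by
      refine hKa _ fun D => ?_
      obtain ⟨w, hw, -, -, e1, -, e3⟩ := logder_blocks hH hC D
      have e4 : D (by' C).det = (by' w).trace * (by' C).det := by
        have h5 := der_det D hdet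
        rw [e1, Matrix.mul_assoc, Matrix.mul_nonsing_inv _ (isUnit_iff_ne_zero.2 hdet), Matrix.mul_one] at h5
        exact h5.symm
      have e5 : D (∑ j, bt C () j * u j) = (by' w).trace * ∑ j, bt C () j * u j := by
        rw [map_sum]
        have h6 : ∀ j, D (bt C () j * u j) = (by' w).trace * (bt C () j * u j) + bt w () j * u j := by
          intro j
          rw [D.leibniz, der_mem D (huK j), smul_zero, zero_add, smul_eq_mul]
          have h7 : D (bt C () j) = (by' w).trace * bt C () j + bt w () j := congrFun (congrFun e3 ()) j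
          rw [h7]
          ring
        rw [Finset.sum_congr rfl fun j _ => h6 j, Finset.sum_add_distrib, hA' w hw, add_zero, Finset.mul_sum]
      rw [dlog D hdet e5 e4, sub_self, zero_mul]
    refine ht u _ huK hz ?_
    field_simp
  have h2 : s () ∈ M := by rw [htop]; trivial
  exact h2

/-- conjugation of the elements with given reductive part -/
theorem xi_mul' {X : Matrix (Fin 2) (Fin 2) ℂ} {A A' : Matrix (Fin 2) (Fin m) ℂ} {W B : Matrix (Fin m) (Fin m) ℂ}
    {t s : Matrix Unit (Fin l) ℂ} (hA : X * A' = A) (hW : X.trace • W = B + A'ᵀ * JJ * A)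
    (ht : X.trace • t = s) : lie X 0 0 0 * mk 1 A' W t = mk 1 A' W t * lie X A B s := by
  have h1 : X.trace • (A'ᵀ * JJ) = Aᵀ * JJ + A'ᵀ * JJ * X := by
    rw [← hA, transpose_mul, Matrix.mul_assoc A'ᵀ Xᵀ JJ, Matrix.mul_assoc A'ᵀ JJ X, ← Matrix.mul_add, add_comm,
      tr_form, Matrix.mul_smul]
  unfold lie mk
  simp only [fromBlocks_multiply, Matrix.mul_zero, Matrix.zero_mul, add_zero, zero_add, Matrix.mul_one,
    Matrix.one_mul, Matrix.smul_mul, Matrix.mul_smul, fromCols_mul_fromBlocks, smul_smul, smul_cols, add_cols,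
    smul_zero, transpose_zero, det_one, one_smul, one_mul]
  rw [hW, ht, h1, hA]

/-- the conjugating element -/
theorem exists_conj {X : Matrix (Fin 2) (Fin 2) ℂ} (hdet : X.det ≠ 0) (htr : X.trace ≠ 0)
    {A : Matrix (Fin 2) (Fin m) ℂ} {B : Matrix (Fin m) (Fin m) ℂ} (hB : Bᵀ = B) {s : Matrix Unit (Fin l) ℂ}
    {K : Subfield ℂ} (hX : ∀ i j, X i j ∈ K) (hA : ∀ i j, A i j ∈ K) (hBK : ∀ i j, B i j ∈ K) (hs : ∀ i j, s i j ∈ K) :
    ∃ (A' : Matrix (Fin 2) (Fin m) ℂ) (W : Matrix (Fin m) (Fin m) ℂ) (t : Matrix Unit (Fin l) ℂ),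
      W - Wᵀ = A'ᵀ * JJ * A' ∧ (∀ i j, mk 1 A' W t i j ∈ K) ∧
      lie X 0 0 0 * mk 1 A' W t = mk 1 A' W t * lie X A B s := by
  have hu : IsUnit X.det := isUnit_iff_ne_zero.2 hdet
  have htrK : X.trace ∈ K := by
    rw [Matrix.trace_fin_two]
    exact K.add_mem (hX _ _) (hX _ _)
  have hmulK : ∀ {n p q : Type} [Fintype p] {M : Matrix n p ℂ} {N : Matrix p q ℂ}, (∀ i j, M i j ∈ K) →
      (∀ i j, N i j ∈ K) → ∀ i j, (M * N) i j ∈ K := by
    intro n p q _ M N hM hN i j
    rw [Matrix.mul_apply]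
    exact K.sum_mem fun k _ => K.mul_mem (hM _ _) (hN _ _)
  have hJK : ∀ a b, JJ a b ∈ K := by
    intro a b
    fin_cases a <;> fin_cases b
    · exact K.zero_mem
    · exact K.one_mem
    · exact K.neg_mem K.one_mem
    · exact K.zero_mem
  set A' := X⁻¹ * A with hA'
  have hA'K : ∀ i j, A' i j ∈ K := hmulK (inv_K hX) hA
  have hXA : X * A' = A := by
    rw [hA', ← Matrix.mul_assoc, Matrix.mul_nonsing_inv _ hu, Matrix.one_mul]
  refine ⟨A', X.trace⁻¹ • (B + A'ᵀ * JJ * A), X.trace⁻¹ • s, ?_, ?_, ?_⟩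
  · have h5 : (A'ᵀ * JJ * A)ᵀ = -(A'ᵀ * Xᵀ * JJ * A') := by
      rw [transpose_mul, transpose_mul, transpose_transpose, JJ_t]
      conv_lhs => rw [← hXA, transpose_mul]
      simp only [Matrix.mul_neg, Matrix.neg_mul, Matrix.mul_assoc]
    have h6 : A'ᵀ * JJ * A + A'ᵀ * Xᵀ * JJ * A' = X.trace • (A'ᵀ * JJ * A') := by
      have h7 : A'ᵀ * JJ * A = A'ᵀ * (JJ * X) * A' := by
        rw [← hXA]
        simp only [Matrix.mul_assoc]
      have h8 : A'ᵀ * Xᵀ * JJ * A' = A'ᵀ * (Xᵀ * JJ) * A' := by simp only [Matrix.mul_assoc]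
      rw [h7, h8, ← Matrix.add_mul, ← Matrix.mul_add, tr_form]
      simp only [Matrix.mul_smul, Matrix.smul_mul]
    rw [transpose_smul, transpose_add, h5, hB, ← smul_sub]
    have h9 : B + A'ᵀ * JJ * A - (B + -(A'ᵀ * Xᵀ * JJ * A')) = X.trace • (A'ᵀ * JJ * A') := by
      rw [← h6]
      abel
    rw [h9, smul_smul, inv_mul_cancel₀ htr, one_smul]
  · refine mk_K ?_ hA'K (fun i j => K.mul_mem (K.inv_mem htrK) (K.add_mem (hBK _ _) ?_))
      (fun i j => K.mul_mem (K.inv_mem htrK) (hs _ _))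
    · intro i j
      rw [Matrix.one_apply]
      split_ifs
      · exact K.one_mem
      · exact K.zero_mem
    · exact hmulK (hmulK (fun i j => hA'K j i) hJK) hA i j
  · refine xi_mul' hXA ?_ ?_
    · rw [smul_smul, mul_inv_cancel₀ htr, one_smul]
    · rw [smul_smul, mul_inv_cancel₀ htr, one_smul]

/-- conjugates of subgroups -/
theorem conj_sbg {H : Set (Matrix (Idx m l) (Idx m l) ℂ)} (hH : Sbg K H) {g : Matrix (Idx m l) (Idx m l) ℂ}
    (hg : g ∈ GG m l) (hgK : ∀ i j, g i j ∈ K) : Sbg K {x | g⁻¹ * x * g ∈ H} := by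
  have hug := isUnit_of hg
  have hug' := (Matrix.isUnit_iff_isUnit_det g).1 hug
  refine ⟨translate hH.sub (isUnit_of (GG_inv hg)) hug (inv_K hgK) hgK, ?_, ?_⟩
  · intro x hx
    have h1 := hH.le hx
    have h2 : x = g * (g⁻¹ * x * g) * g⁻¹ := by
      rw [← Matrix.mul_assoc, ← Matrix.mul_assoc, Matrix.mul_nonsing_inv _ hug', Matrix.one_mul, Matrix.mul_assoc,
        Matrix.mul_nonsing_inv _ hug', Matrix.mul_one]
    rw [h2]
    exact GG_mul (GG_mul hg h1) (GG_inv hg)
  · show g⁻¹ * 1 * g ∈ H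
    rw [Matrix.mul_one, Matrix.nonsing_inv_mul _ hug']
    exact hH.one

/-- **The unipotent part of a subgroup.** -/
theorem uni_sbg (hKa : ∀ z : ℂ, (∀ D : Derivation K ℂ ℂ, D z = 0) → z ∈ K)
    {H : Set (Matrix (Idx m l) (Idx m l) ℂ)} (hH : Sbg K H) (hD : Dgn H) {C : Matrix (Idx m l) (Idx m l) ℂ}
    (hC : C ∈ H) (hG : Gen K (by' C))
    (hV : ∀ (a : Fin 2) (u : Fin m → ℂ) (z b : ℂ), (∀ i, u i ∈ K) → z ∈ K → b ∈ K →
      ∑ j, bV C a j * u j = by' C a a * z + b → u = 0)
    (ht : ∀ (u : Fin l → ℂ) (z b : ℂ), (∀ i, u i ∈ K) → z ∈ K → b ∈ K →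
      ∑ j, bt C () j * u j = (by' C).det * z + b → u = 0)
    {V : Matrix (Fin 2) (Fin m) ℂ} {W : Matrix (Fin m) (Fin m) ℂ} {t : Matrix Unit (Fin l) ℂ}
    (hW : W - Wᵀ = Vᵀ * JJ * V) {x : Matrix (Idx m l) (Idx m l) ℂ} (hx : x ∈ H) : mk 1 V W t * x ∈ H := by
  obtain ⟨ξ, hξ, hξK, p0, q0, pq, pne⟩ := exists_xi hKa hH hD hC hG
  obtain ⟨s1, s2⟩ := shape hH.le hH.one hξ
  have x01 : by' ξ 0 1 = 0 := hD.w01 hH.one hξ
  have x10 : by' ξ 1 0 = 0 := hD.w10 hH.one hξ
  set X := by' ξ with hX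
  have hdet : X.det ≠ 0 := by
    rw [Matrix.det_fin_two, x01, zero_mul, sub_zero]
    exact mul_ne_zero p0 q0
  have htr : X.trace ≠ 0 := by
    rw [Matrix.trace_fin_two]
    exact pq
  obtain ⟨A', W', t', hW', hgK, hconj⟩ := exists_conj (X := X) hdet htr (A := bV ξ) (B := bW ξ) s2 (s := bt ξ)
    (K := K) (fun i j => hξK _ _) (fun i j => hξK _ _) (fun i j => hξK _ _) (fun i j => hξK _ _)
  rw [← s1] at hconj
  set g := mk 1 A' W' t' with hgdef
  have hg : g ∈ GG m l := ⟨_, _, _, _, by simp, hW', rfl⟩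
  have hug := isUnit_of hg
  have hug' := (Matrix.isUnit_iff_isUnit_det g).1 hug
  have hH1 := conj_sbg hH hg hgK
  set H1 : Set (Matrix (Idx m l) (Idx m l) ℂ) := {x | g⁻¹ * x * g ∈ H} with hH1d
  have h1 : lie X 0 0 0 ∈ LA H1 := by
    refine LA_translate (isUnit_of (GG_inv hg)) hug ?_
    rw [Matrix.nonsing_inv_nonsing_inv _ hug', Matrix.mul_assoc, hconj, ← Matrix.mul_assoc,
      Matrix.nonsing_inv_mul _ hug', Matrix.one_mul]
    exact hξ
  -- elements of the conjugate
  have hmem : ∀ y ∈ H, g * y * g⁻¹ ∈ H1 := by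
    intro y hy
    show g⁻¹ * (g * y * g⁻¹) * g ∈ H
    have h2 : g⁻¹ * (g * y * g⁻¹) * g = y := by
      calc g⁻¹ * (g * y * g⁻¹) * g = (g⁻¹ * g) * y * (g⁻¹ * g) := by simp only [Matrix.mul_assoc]
        _ = y := by rw [Matrix.nonsing_inv_mul _ hug', Matrix.one_mul, Matrix.mul_one]
    rw [h2]
    exact hy
  -- the inverse of g
  obtain ⟨A'', W'', t'', hW'', hginv⟩ : ∃ A'' W'' t'', W'' - W''ᵀ = A''ᵀ * JJ * A'' ∧ g⁻¹ = mk 1 A'' W'' t'' := by
    obtain ⟨y'', A'', W'', t'', hy'', hW'', e⟩ := GG_inv hg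
    refine ⟨A'', W'', t'', hW'', ?_⟩
    have h2 : by' (g * g⁻¹) = 1 := by
      rw [Matrix.mul_nonsing_inv _ hug']
      have := by_mk (m := m) (l := l) 1 0 0 0
      rwa [mk_one] at this
    rw [hgdef, ← hgdef, e, hgdef, mk_mul, by_mk, Matrix.one_mul] at h2
    rw [e, h2]
  -- H1 is diagonal
  have hby : ∀ y ∈ GG m l, by' (g⁻¹ * y * g) = by' y := by
    rintro y ⟨y1, V1, W1, t1, -, -, rfl⟩
    rw [hginv, hgdef, mk_mul, mk_mul, by_mk, by_mk, Matrix.one_mul, Matrix.mul_one]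
  have hby' : ∀ y ∈ GG m l, by' (g * y * g⁻¹) = by' y := by
    rintro y ⟨y1, V1, W1, t1, -, -, rfl⟩
    rw [hginv, hgdef, mk_mul, mk_mul, by_mk, by_mk, Matrix.one_mul, Matrix.mul_one]
  have hD1 : Dgn H1 := by
    refine ⟨fun y hy => ?_, fun y hy => ?_⟩
    · have h2 := hD.d01 _ hy
      rwa [hby y (hH1.le hy)] at h2
    · have h2 := hD.d10 _ hy
      rwa [hby y (hH1.le hy)] at h2
  have hC1 : g * C * g⁻¹ ∈ H1 := hmem C hC
  have hCG := hH.le hC
  have hbyC : by' (g * C * g⁻¹) = by' C := hby' C hCG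
  obtain ⟨a1, a2, a3⟩ := blocks_mul hg hCG
  obtain ⟨b1, b2, b3⟩ := blocks_mul (GG_mul hg hCG) (GG_inv hg)
  have hbg : by' g = 1 := rfl
  have hbVg : ∀ i j, bV g i j ∈ K := fun i j => hgK (Sum.inl (Sum.inr (Sum.inl i))) (Sum.inl (Sum.inr (Sum.inr j)))
  have hbtg : ∀ i j, bt g i j ∈ K := fun i j => hgK (Sum.inr (Sum.inl i)) (Sum.inr (Sum.inr j))
  have hbVg' : ∀ i j, bV g⁻¹ i j ∈ K := fun i j => inv_K hgK _ _
  have hbtg' : ∀ i j, bt g⁻¹ i j ∈ K := fun i j => inv_K hgK _ _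
  rw [hbg, Matrix.one_mul] at a1 a2
  rw [hbg, det_one, one_smul] at a3
  rw [a1, a2] at b2
  rw [a1, a3] at b3
  have hgr : ∀ w ∈ LA H1, lie (by' w) 0 0 0 ∈ LA H1 ∧ lie 0 (bV w) 0 0 ∈ LA H1 ∧ lie 0 0 (bW w) (bt w) ∈ LA H1 :=
    fun w hw => graded' hH1 hdet htr h1 hw (diag_comm (hD1.w01 hH1.one hw) (hD1.w10 hH1.one hw) x01 x10)
  have hG1 : Gen K (by' (g * C * g⁻¹)) := by rwa [hbyC]
  have hA := step2' hKa hH1 hC1 hG1 (fun w hw a => rows x01 x10 pne h1 (hgr w hw).2.1 a) (by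
    intro a u z huK hz h0
    have hCdiag : ∀ (N : Matrix (Fin 2) (Fin m) ℂ) (j : Fin m), (by' C * N) a j = by' C a a * N a j := by
      intro N j
      rw [Matrix.mul_apply, Fin.sum_univ_two]
      fin_cases a
      · simp [hG.y01]
      · simp [hG.y10]
    refine hV a u (z - ∑ j, bV g⁻¹ a j * u j) (-∑ j, bV g a j * u j) huK
      (K.sub_mem hz (K.sum_mem fun j _ => K.mul_mem (hbVg' _ _) (huK _)))
      (K.neg_mem (K.sum_mem fun j _ => K.mul_mem (hbVg _ _) (huK _))) ?_
    rw [b2, hbyC] at h0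
    have h1 : ∑ j, (by' C * bV g⁻¹ + (bV C + bV g)) a j * u j =
        by' C a a * ∑ j, bV g⁻¹ a j * u j + (∑ j, bV C a j * u j + ∑ j, bV g a j * u j) := by
      rw [Finset.mul_sum, ← Finset.sum_add_distrib, ← Finset.sum_add_distrib]
      refine Finset.sum_congr rfl fun j _ => ?_
      rw [Matrix.add_apply, Matrix.add_apply, hCdiag]
      ring
    rw [h1] at h0
    linear_combination h0)
  have hs := step4' hKa hH1 hC1 (fun w hw => (hgr w hw).2.2) hA (by
    intro u z huK hz h0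
    refine ht u (z - ∑ j, bt g⁻¹ () j * u j) (-∑ j, bt g () j * u j) huK
      (K.sub_mem hz (K.sum_mem fun j _ => K.mul_mem (hbtg' _ _) (huK _)))
      (K.neg_mem (K.sum_mem fun j _ => K.mul_mem (hbtg _ _) (huK _))) ?_
    rw [b3, hbyC] at h0
    have h1 : ∑ j, ((by' C).det • bt g⁻¹ + (bt C + bt g)) () j * u j =
        (by' C).det * ∑ j, bt g⁻¹ () j * u j + (∑ j, bt C () j * u j + ∑ j, bt g () j * u j) := by
      rw [Finset.mul_sum, ← Finset.sum_add_distrib, ← Finset.sum_add_distrib]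
      refine Finset.sum_congr rfl fun j _ => ?_
      simp only [Matrix.add_apply, Matrix.smul_apply, smul_eq_mul]
      ring
    rw [h1] at h0
    linear_combination h0)
  -- back to H
  have hxG : mk 1 V W t ∈ GG m l := ⟨_, _, _, _, by simp, hW, rfl⟩
  obtain ⟨V2, W2, t2, hW2, h2⟩ : ∃ V2 W2 t2, W2 - W2ᵀ = V2ᵀ * JJ * V2 ∧ g * mk 1 V W t * g⁻¹ = mk 1 V2 W2 t2 := by
    obtain ⟨y2, V2, W2, t2, -, hW2, e⟩ := GG_mul (GG_mul hg hxG) (GG_inv hg)
    refine ⟨V2, W2, t2, hW2, ?_⟩
    have h3 := hby' _ hxG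
    rw [e, by_mk, by_mk] at h3
    rw [e, h3]
  have h3 := uni_mem (t := t2) hH1 hA hs hW2 (hmem x hx)
  rw [← h2] at h3
  have h4 : g⁻¹ * (g * mk 1 V W t * g⁻¹ * (g * x * g⁻¹)) * g ∈ H := h3
  have h5 : g⁻¹ * (g * mk 1 V W t * g⁻¹ * (g * x * g⁻¹)) * g = mk 1 V W t * x := by
    calc g⁻¹ * (g * mk 1 V W t * g⁻¹ * (g * x * g⁻¹)) * g =
        (g⁻¹ * g) * mk 1 V W t * (g⁻¹ * g) * x * (g⁻¹ * g) := by simp only [Matrix.mul_assoc]
      _ = _ := by rw [Matrix.nonsing_inv_mul _ hug', Matrix.one_mul, Matrix.mul_one, Matrix.mul_one]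
  rwa [h5] at h4

end Pool.Agent.V1138.CM
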